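import Mathlib

set_option autoImplicit false

/-!
# Wildly ramified covers of the projective line branched at one point: the moduli space

Problem MP_76d46b_ag, for covers of `ℙ¹` (`g_X = 0`) with one branch point (`r = 1`). A ramification configuration is then
one number `d`, the degree of the different above the branch point, and `2 g_Y - 2 = -2 |P| + d`.

The branch point is a section of a smooth conic `X → S`, so Zariski locally on `S` every object of `𝓜_η(S)` has
`X = ℙ¹_S`, `B = ∞`; the only isomorphisms of `(ℙ¹, ∞)` are `x ↦ r x + s`.
Over an algebraically closed field `K` a `P`-Galois cover `Y → ℙ¹` branched only over `∞` is given by its extension of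
function fields `L / K(x)` (structure `Cov`). In a family over `S = Spec R` the restriction of `Y` to the affine line
`ℙ¹_S ∖ B = Spec R[x]` is a `P`-torsor `Spec A` (structure `Fam`).
-/

namespace Run7.h477.WC

open Polynomial

universe u

/-! ## Galois coverings of affine schemes -/

/-- `Spec A → Spec B` is a Galois étale covering with group `P` (SGA 1, V.2): `A` is a finite `B`-algebra, `P` acts on `A`
by `B`-algebra automorphisms, `B` is the ring of invariants, and `P` acts freely on `Spec A`: no `σ ≠ 1` lies in the inertia
group of a prime ideal of `A`. -/
structure IsTorsor (P B A : Type*) [Group P] [CommRing B] [CommRing A] [Algebra B A] [MulSemiringAction P A] : Prop where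
  inj : Function.Injective (algebraMap B A)
  finite : Module.Finite B A
  comm : ∀ (σ : P) (b : B), σ • algebraMap B A b = algebraMap B A b
  inv : ∀ a : A, (∀ σ : P, σ • a = a) → ∃ b : B, algebraMap B A b = a
  free : ∀ σ : P, σ ≠ 1 → ∀ Q : Ideal A, Q.IsPrime → ∃ a : A, σ • a - a ∉ Q

/-! ## Covers over a field -/

/-- A `P`-Galois cover `Y → ℙ¹` of smooth projective connected curves over `K`, étale over the affine line, given by its
extension of function fields `L / K(x)`: `L / K(x)` is Galois with group `P`, and the normalisation of `K[x]` in `L` is a
Galois étale covering of the affine line with group `P`. -/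
structure Cov (P : Type) [Group P] (K : Type u) [Field K] where
  L : Type u
  [fld : Field L]
  [algX : Algebra K[X] L]
  [algR : Algebra (RatFunc K) L]
  [tower : IsScalarTower K[X] (RatFunc K) L]
  [act : MulSemiringAction P L]
  [comm : SMulCommClass P K[X] L]
  galois : IsGaloisGroup P (RatFunc K) L
  torsor : IsTorsor P K[X] (integralClosure K[X] L)

attribute [instance] Cov.fld Cov.algX Cov.algR Cov.tower Cov.act Cov.comm

open scoped Classical in
/-- the local ring of `ℙ¹` at `∞`: the rational functions `f / g` with `deg f ≤ deg g` -/
noncomputable def Oinf (K : Type u) [Field K] : ValuationSubring (RatFunc K) :=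
  (RatFunc.inftyValuation K).valuationSubring

open scoped Classical in
instance dvr_Oinf (K : Type u) [Field K] : IsDiscreteValuationRing (Oinf K) := by
  unfold Oinf
  infer_instance

section
variable (O F L : Type u) [CommRing O] [IsDomain O] [IsDiscreteValuationRing O] [Field F] [Algebra O F] [IsFractionRing O F]
  [Field L] [Algebra F L] [Algebra O L] [IsScalarTower O F L] [FiniteDimensional F L] [Algebra.IsSeparable F L]

include F in
lemma dedekind_of : IsDedekindDomain (integralClosure O L) := integralClosure.isDedekindDomain O F L

omit [FiniteDimensional F L] [Algebra.IsSeparable F L] in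
include F in
lemma torsionFree_of : Module.IsTorsionFree O (integralClosure O L) := by
  have h1 : Function.Injective (algebraMap O L) := by
    rw [IsScalarTower.algebraMap_eq O F L]
    exact (algebraMap F L).injective.comp (IsFractionRing.injective O F)
  have h2 : FaithfulSMul O L := (faithfulSMul_iff_algebraMap_injective O L).2 h1
  infer_instance

/-- the length of the `B`-module `B / 𝔇`, `𝔇` the different of `B / O`: the sum over the maximal ideals of `B` of their
multiplicities in `𝔇` -/
noncomputable def lenDiff (O B : Type u) [CommRing O] [IsDomain O] [CommRing B] [IsDedekindDomain B] [Algebra O B]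
    [Module.IsTorsionFree O B] : ℕ∞ := Module.length B (B ⧸ differentIdeal O B)

/-- `O` a discrete valuation ring with fraction field `F`, `L / F` finite separable, `B` the integral closure of `O` in `L`,
`𝔇` the different of `B / O`: the length of `B / 𝔇`, that is, the sum over the points above the closed point of `Spec O` of
their multiplicities in the different -/
noncomputable def degDiff : ℕ∞ :=
  haveI := dedekind_of O F L
  haveI := torsionFree_of O F L
  lenDiff O (integralClosure O L)

end

section
variable {P : Type} [Group P] {K : Type u} [Field K]

noncomputable instance Cov.algO (c : Cov P K) : Algebra (Oinf K) c.L := inferInstance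

instance Cov.towO (c : Cov P K) : IsScalarTower (Oinf K) (RatFunc K) c.L := inferInstance

variable [Finite P]

instance Cov.finDim (c : Cov P K) : FiniteDimensional (RatFunc K) c.L :=
  have := c.galois
  IsGaloisGroup.finiteDimensional P (RatFunc K) c.L

instance Cov.isGalois (c : Cov P K) : IsGalois (RatFunc K) c.L :=
  have := c.galois
  IsGaloisGroup.isGalois P (RatFunc K) c.L

/-- the degree of the different of the cover above `∞`: `∑_{y ↦ ∞} d_y`, `d_y` the multiplicity of `y` in the different -/
noncomputable def Cov.deg (c : Cov P K) : ℕ∞ := degDiff (Oinf K) (RatFunc K) c.L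

end

/-! ## The moduli space -/

/-- an algebraically closed extension field of `k` -/
structure Geo (k : Type u) [Field k] where
  K : Type u
  [fld : Field K]
  [alg : Algebra k K]
  [ac : IsAlgClosed K]

attribute [instance] Geo.fld Geo.alg Geo.ac

/-- a geometric point of the moduli problem: a `P`-Galois cover `Y → ℙ¹` over an algebraically closed field `K ⊇ k`,
branched only over `∞`, with `d` the degree of the different above `∞` -/
structure Pt (P : Type) [Group P] [Finite P] (k : Type u) [Field k] (d : ℕ) where
  g : Geo k
  c : Cov P g.K
  hd : c.deg = d

section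
variable {P : Type} [Group P] [Finite P] {k : Type u} [Field k] {d : ℕ}

/-- substitution of `r x + s` in a polynomial, after the extension `φ` of the constants -/
noncomputable def subst {K K' : Type u} [Field K] [Field K'] (φ : K →+* K') (r s : K') (f : K[X]) : K'[X] :=
  (f.map φ).comp (C r * X + C s)

/-- `ψ` is `P`-equivariant -/
def Equi (P : Type) {A A' : Type u} [Group P] [CommRing A] [CommRing A'] [MulSemiringAction P A] [MulSemiringAction P A']
    (ψ : A →+* A') : Prop := ∀ (σ : P) (y : A), ψ (σ • y) = σ • ψ y

/-- `φ : R → K` is a homomorphism of `k`-algebras, i.e. a geometric point of `Spec R` over `k` -/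
def Over {k : Type u} [Field k] {R : Type u} [CommRing R] [Algebra k R] (g : Geo k) (φ : R →+* g.K) : Prop :=
  φ.comp (algebraMap k R) = algebraMap k g.K

/-- `ψ` is a `P`-equivariant map of function fields over `x ↦ r x + s` and over the extension `φ` of the constants -/
def IsMor {P : Type} [Group P] {K K' : Type u} [Field K] [Field K'] (c : Cov P K) (c' : Cov P K') (φ : K →+* K') (r s : K')
    (ψ : c.L →+* c'.L) : Prop :=
  Equi P ψ ∧ ∀ f : K[X], ψ (algebraMap K[X] c.L f) = algebraMap K'[X] c'.L (subst φ r s f)

/-- `c'` is isomorphic, in the moduli problem, to the base change of the cover `c` under the extension `φ` of base fields: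
there are an isomorphism `x ↦ r x + s` of `(ℙ¹, ∞)` and a `P`-equivariant map `ψ` of function fields over it. (The extension
`c'.L / K'(x)` has the degree `|P|` of `c.L / K(x)`, so that `c'.L` is the composite of `ψ(c.L)` and `K'(x)`.) -/
def Cov.Rel {P : Type} [Group P] {K K' : Type u} [Field K] [Field K'] (c : Cov P K) (c' : Cov P K') (φ : K →+* K') : Prop :=
  ∃ (r s : K') (ψ : c.L →+* c'.L), r ≠ 0 ∧ IsMor c c' φ r s ψ

/-- `b` arises from `a` by an extension `φ` of the base field over `k`, followed by an isomorphism of the moduli problem -/
def Pt.Rel (a b : Pt P k d) : Prop :=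
  ∃ φ : a.g.K →+* b.g.K, Over b.g φ ∧ a.c.Rel b.c φ

end

/-- the underlying set of the moduli space `|𝓜_η|`: geometric points up to the equivalence relation generated by `Rel` -/
def Mod (P : Type) [Group P] [Finite P] (k : Type u) [Field k] (d : ℕ) : Type (u + 1) :=
  Quot (Pt.Rel (P := P) (k := k) (d := d))

/-- `c` is the fibre, over the geometric point `φ`, of the family given by the `P`-torsor `Spec A` over `Spec R[x]`:
there is a `P`-equivariant morphism over `φ`. (A `P`-equivariant morphism between `P`-torsors over the same base is an
isomorphism.) -/
def IsFibre {P : Type} [Group P] {R : Type u} [CommRing R] {A : Type u} [CommRing A] [Algebra R[X] A]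
    [MulSemiringAction P A] {K : Type u} [Field K] (φ : R →+* K) (c : Cov P K) : Prop :=
  ∃ ψ : A →+* c.L, Equi P ψ ∧ ∀ f : R[X], ψ (algebraMap R[X] A f) = algebraMap K[X] c.L (f.map φ)

/-- a family over `Spec R` of `P`-Galois covers of `ℙ¹`, branched only over `∞`, with degree of the different `d`:
a `P`-torsor over the affine line over `R` such that for every geometric point of `Spec R` the fibre is (connected and) such
a cover. -/
structure Fam (P : Type) [Group P] [Finite P] (k : Type u) [Field k] (d : ℕ) (R : Type u) [CommRing R] [Algebra k R] where
  A : Type u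
  [ring : CommRing A]
  [alg : Algebra R[X] A]
  [act : MulSemiringAction P A]
  torsor : IsTorsor P R[X] A
  fibre : ∀ (g : Geo k) (φ : R →+* g.K), Over g φ → ∃ c : Cov P g.K, c.deg = d ∧ IsFibre (A := A) φ c

attribute [instance] Fam.ring Fam.alg Fam.act

section
variable {P : Type} [Group P] [Finite P] {k : Type u} [Field k] {d : ℕ}

/-- `t : Spec R → |𝓜_η|` is the classifying map of the family `F`: it maps `s` to the class of a geometric fibre over `s` -/
def Fam.IsClassifying {R : Type u} [CommRing R] [Algebra k R] (F : Fam P k d R) (t : PrimeSpectrum R → Mod P k d) : Prop :=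
  ∀ s : PrimeSpectrum R, ∃ (a : Pt P k d) (φ : R →+* a.g.K), Over a.g φ ∧ RingHom.ker φ = s.asIdeal ∧
    IsFibre (A := F.A) φ a.c ∧ t s = Quot.mk _ a

/-- the topology of `|𝓜_η|`: the finest one for which the classifying maps `Spec R → |𝓜_η|` of all families are
continuous (`R` any commutative `k`-algebra) -/
instance : TopologicalSpace (Mod P k d) :=
  ⨆ (R : Type u) (_ : CommRing R) (_ : Algebra k R) (F : Fam P k d R) (t : PrimeSpectrum R → Mod P k d)
    (_ : F.IsClassifying t), TopologicalSpace.coinduced t inferInstance

end

/-- the group `(ℤ/p)²` -/
abbrev Pp (p : ℕ) : Type := Multiplicative (ZMod p × ZMod p)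

end Run7.h477.WC
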