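import Mathlib
import Pool.Agent.Run7.h477.WC.Defs

set_option autoImplicit false

/-!
# Project WC (helper477), MP_76d46b_ag: the pieces

Every statement `S_X` is a closed proposition with a complete proof in its docstring. Put your file at
`Pool/Agent/Run7/<seat>/WC/<X>.lean`, theorem `t_X : S_X` (universe polymorphic where `S_X` is).
-/

namespace Run7.h477.WC

open Polynomial

universe u

/-- the least degree of the polynomials `h + g ^ p - g`: the conductor of the Artin-Schreier extension `y ^ p - y = h` at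
infinity is this number plus one -/
noncomputable def minDeg (p : ℕ) {K : Type*} [Field K] (h : K[X]) : ℕ :=
  sInf {n | ∃ g : K[X], (h + g ^ p - g).natDegree = n}

/-- the character `(i, j) ↦ a i + b j` of `(ℤ/p)²` -/
def chi {p : ℕ} (a : ZMod p × ZMod p) (σ : Pp p) : ZMod p :=
  a.1 * (Multiplicative.toAdd σ).1 + a.2 * (Multiplicative.toAdd σ).2

/-- **H90** (Artin-Schreier theory of a torsor; 100 lines). Proof. (1) For `σ ≠ 1` the ideal of `A` generated by all
`σ b - b` is `A` (otherwise it is contained in a maximal ideal `Q`, against `free`). So `∑ a_j (b_j - σ b_j) = 1`, and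
`e_σ = ∑ a_j ⊗ b_j - (∑ a_j σ(b_j)) ⊗ 1 ∈ A ⊗_B A` has `φ_1(e_σ) = 1`, `φ_σ(e_σ) = 0`, where `φ_τ(a ⊗ b) = a τ(b)` is a ring
homomorphism `A ⊗_B A → A`. The product `e = ∏_{σ ≠ 1} e_σ = ∑ x_i ⊗ y_i` satisfies `∑ x_i τ(y_i) = δ_{τ,1}`.
(2) Let `tr a = ∑_σ σ a ∈ B`. Then `a = ∑ x_i tr(y_i a)` for all `a`. If `tr(A) ≠ B` it lies in a maximal ideal `𝔭` of `B`,
so `A = 𝔭 A`, and by Nakayama (`Submodule.exists_sub_one_mem_and_smul_eq_zero_of_fg_of_le_smul`, `A` finite over `B`) some
`b ∈ 1 + 𝔭` kills `A`, so `b = 0` (`B → A` injective), a contradiction. So `tr a = 1` for some `a`.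
(3) `y = - ∑_τ χ(τ) τ(a)`: `σ y = - ∑_τ χ(σ⁻¹ τ) τ(a) = y + χ(σ) tr a`. Then `y ^ p - y` is invariant
(`(y + c) ^ p - (y + c) = y ^ p - y` for `c ∈ 𝔽_p`, as `p = 0` in `A`). -/
def S_H90 : Prop := ∀ (p : ℕ) [Fact p.Prime] (P : Type) [Group P] [Finite P] (B A : Type u) [CommRing B] [CommRing A]
  [Algebra B A] [MulSemiringAction P A], IsTorsor P B A → (p : A) = 0 →
  ∀ χ : P → ZMod p, (∀ σ τ, χ (σ * τ) = χ σ + χ τ) →
  ∃ (y : A) (f : B), (∀ σ : P, σ • y = y + ((χ σ).val : A)) ∧ y ^ p - y = algebraMap B A f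

/-- **SEMI** (semicontinuity; 150-200 lines). Proof. For `N > deg f` put `C_i(h) = ∑_{j ≤ N} (h.coeff (i p^j))^(p^(N-j))` for
`i ≥ 1` prime to `p`. In characteristic `p`, `C_i` is additive, commutes with ring homomorphisms, and over a field
`C_i(g ^ p) = C_i(g)` when `deg g < p ^ N` (coefficients of `g ^ p` at `p n` are the `p`-th powers), hence
`C_i(h + g ^ p - g) = C_i(h)` for large `N` (take `N > deg h + deg g`; `C_i^(N+1)(h) = C_i^(N)(h)^p` for `N > deg h`, so that
vanishing of `C_i` does not depend on `N > deg h`). Over a perfect field: `a x^(p i) ~ a^(1/p) x^i` modulo `g ^ p - g`, so every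
`h` is equivalent to `∑_{(i,p)=1} c_i x^i + const`, `c_i^(p^N) = C_i(h)`; if all `C_i(h) = 0`, `i ≥ m` (`m ≥ 1`), then
`minDeg h < m`; conversely, if `deg (h + g ^ p - g) < m` then `C_i(h) = 0` for `i ≥ m`. So `m ≤ minDeg (f.map φ)` iff
`φ(C_i(f)) ≠ 0` for some `i ≥ m` prime to `p`: the union of finitely many basic open sets. (`m = 0`: `U = univ`.) -/
def S_SEMI : Prop := ∀ (p : ℕ) [Fact p.Prime] (R : Type u) [CommRing R], (p : R) = 0 → ∀ (f : R[X]) (m : ℕ),
  ∃ U : Set (PrimeSpectrum R), IsOpen U ∧ ∀ (K : Type u) [Field K] [IsAlgClosed K] (φ : R →+* K),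
    m ≤ minDeg p (f.map φ) ↔ (⟨RingHom.ker φ, RingHom.ker_isPrime φ⟩ : PrimeSpectrum R) ∈ U

/-- **MIN** (80-120 lines). (i) a polynomial of least degree in its class is `0` or has degree prime to `p`: if the degree is
`p n > 0`, subtract the leading term `a x^(pn) = (a^(1/p) x^n)^p` and add `a^(1/p) x^n`; if it is constant, `c = e ^ p - e` (`K`
algebraically closed). (ii) `x ↦ r x + s` is an automorphism of `K[x]` which preserves degrees. (iii) invariance under
`h ↦ h + g ^ p - g` (`g ^ p - g + g' ^ p - g' = (g + g') ^ p - (g + g')`). -/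
def S_MIN : Prop := ∀ (p : ℕ) [Fact p.Prime] (K : Type u) [Field K] [IsAlgClosed K] [CharP K p],
  (∀ h : K[X], ∃ g : K[X], (h + g ^ p - g).natDegree = minDeg p h ∧
    (h + g ^ p - g = 0 ∨ ¬ p ∣ (h + g ^ p - g).natDegree)) ∧
  (∀ (h : K[X]) (r s : K), r ≠ 0 → minDeg p (h.comp (C r * X + C s)) = minDeg p h) ∧
  (∀ h g : K[X], minDeg p (h + g ^ p - g) = minDeg p h)

/-- **EXIST** (existence of covers; 250 lines). Let `f_a = a₁ f₁ + a₂ f₂`. Proof. In an algebraic closure of `K(x)` let
`y_i ^ p - y_i = f_i` and `L = K(x)(y₁, y₂)`; it is the splitting field of the separable polynomial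
`(Y ^ p - Y - f₁)(Y ^ p - Y - f₂)`, so Galois over `K(x)`. `σ ↦ (σ y₁ - y₁, σ y₂ - y₂)` is an injective homomorphism
`Gal → 𝔽_p²`. If it is not surjective its image lies in the kernel of some `a ≠ 0`, so `y_a = a₁ y₁ + a₂ y₂ ∈ K(x)`,
`y_a ^ p - y_a = f_a`; `y_a` is integral over `K[x]`, so a polynomial, and `deg (y_a ^ p - y_a)` is `0` or divisible by `p`: a
contradiction. So `Gal ≅ (ℤ/p)²` (multiplicatively written), acting by `σ y_i = y_i + σ_i`. `torsor`: `inj`; `finite` is
`IsIntegralClosure.finite`; `comm`; `inv` (an integral element of `K(x)` is a polynomial); `free`: if `σ ≠ 1` choose `a` with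
`χ_a(σ) ≠ 0`; `b = y_a` is integral and `σ b - b` is a nonzero element of `𝔽_p`, a unit. -/
def S_EXIST : Prop := ∀ (p : ℕ) [Fact p.Prime] (K : Type u) [Field K] [IsAlgClosed K] [CharP K p] (f₁ f₂ : K[X]),
  (∀ a : ZMod p × ZMod p, a ≠ 0 → ¬ p ∣ ((a.1.val : K[X]) * f₁ + (a.2.val : K[X]) * f₂).natDegree) →
  ∃ c : Cov (Pp p) K, ∀ a : ZMod p × ZMod p, ∃ y : c.L, (∀ σ : Pp p, σ • y = y + ((chi a σ).val : c.L)) ∧
    y ^ p - y = algebraMap K[X] c.L ((a.1.val : K[X]) * f₁ + (a.2.val : K[X]) * f₂)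

/-- **UNI** (60 lines): two Artin-Schreier generators for the same character differ by a polynomial. Proof. `y' - y` is
invariant, so it is the image of `g ∈ K(x)`; `g ^ p - g = h' - h` is a polynomial, so `g` is integral over `K[x]`, so a
polynomial. -/
def S_UNI : Prop := ∀ (p : ℕ) [Fact p.Prime] (K : Type u) [Field K] [CharP K p] (P : Type) [Group P] [Finite P]
  (c : Cov P K) (χ : P → ZMod p) (y y' : c.L) (h h' : K[X]), (∀ σ : P, σ • y = y + ((χ σ).val : c.L)) →
  (∀ σ : P, σ • y' = y' + ((χ σ).val : c.L)) → y ^ p - y = algebraMap K[X] c.L h → y' ^ p - y' = algebraMap K[X] c.L h' →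
  ∃ g : K[X], h' = h + g ^ p - g

/-! ## The local part: the degree of the different -/

/-- **LB** (monogenic different; 150-200 lines). `B / C` is a totally ramified Galois extension of discrete valuation rings
(`C → B` finite, `C = B^H`, trivial residue extension), `t` a uniformizer of `B`. Proof. (1) `B = C[t]`: let `π` be a uniformizer
of `C`, `π = t^e unit` in `B`. By hypothesis `B = C + t B`, so `B = C[t] + t^e B = C[t] + π B`, and Nakayama
(`B` finite over `C`, `π` in the maximal ideal of the local ring `C`). (2) the minimal polynomial of `t` over `C` is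
`f = ∏_h (X - h t)` (its coefficients are invariant; degree `|H|` = the degree of the extension of fraction fields, which is
generated by `t`), `f'(t) = ∏_{h ≠ 1} (t - h t)`, and `𝔇 = (f'(t))` by `conductor_mul_differentIdeal` with conductor `1`
(fraction fields: `IsGaloisGroup.to_isFractionRing`, so the extension is Galois, hence separable). -/
def S_LB : Prop := ∀ (C B : Type u) [CommRing C] [IsDomain C] [IsDiscreteValuationRing C] [CommRing B] [IsDomain B]
  [IsDiscreteValuationRing B] [Algebra C B] [Module.IsTorsionFree C B] [Module.Finite C B] (H : Type) [Group H] [Fintype H]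
  [DecidableEq H] [MulSemiringAction H B] [IsGaloisGroup H C B],
  (∀ b : B, ∃ c : C, b - algebraMap C B c ∈ IsLocalRing.maximalIdeal B) → ∀ t : B, Irreducible t →
  Algebra.adjoin C {t} = ⊤ ∧ differentIdeal C B = Ideal.span {∏ h ∈ Finset.univ.erase (1 : H), (t - h • t)}

/-- **LC** (ramification number of an Artin-Schreier step; 100-150 lines). `C` a discrete valuation ring of characteristic
`p`, `h` an automorphism of order dividing `p`, trivial on the residue field, `t` a uniformizer, all `h b - b` divisible by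
`h t - t`. `z = 1 / y` where `h y = y + c`. Proof. `h t = u t`, `u` a unit (`h` is an automorphism). `h` acts trivially on the
residue field, so `1 = (h^p t)/t ≡ u^p`, hence `(u - 1)^p ≡ 0` and `δ = h t - t` has order `i ≥ 2`. Write `z = ε t^m`:
`h z - z = ((t + δ)^m - t^m) h(ε) + t^m (h ε - ε)`, where `(t + δ)^m - t^m = m t^(m-1) δ + (terms of order ≥ m - 2 + 2 i)` has
order exactly `m - 1 + i` (`m` is a unit) and the last term has order `≥ m + i`. So `h z - z` has order `m + i - 1`. On the other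
hand `h z - z = - c z (h z)` has order `2 m` (`c` is a unit, `h z` has the order of `z`). So `i = m + 1`. -/
def S_LC : Prop := ∀ (p : ℕ) [Fact p.Prime] (C : Type u) [CommRing C] [IsDomain C] [IsDiscreteValuationRing C],
  (p : C) = 0 → ∀ h : C ≃+* C, (∀ b, (h^[p]) b = b) → (∀ b, h b - b ∈ IsLocalRing.maximalIdeal C) →
  ∀ t : C, Irreducible t → (∀ b, (h t - t) ∣ (h b - b)) → ∀ (z : C) (m c : ℕ), ¬ p ∣ m → ¬ p ∣ c → Associated z (t ^ m) →
  z = h z * (1 + c * z) → Associated (h t - t) (t ^ (m + 1))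

/-- **LT** (total ramification; 200 lines). `O` a discrete valuation ring of characteristic `p` with algebraically closed
residue field, uniformizer `π`, `L / F` Galois with group `G = (ℤ/p)²`, and for every `a ≠ 0` an element `y` with
`σ y = y + χ_a(σ)`, `y ^ p - y = f` of order `- m < 0`, `m` prime to `p`. Then the integral closure `B` of `O` in `L` is local, with
residue field that of `O`. Proof. Let `𝔮` be a prime of `B` over the maximal ideal `𝔪`, `D` its stabilizer in `G`. The residue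
extension is trivial (`O / 𝔪` algebraically closed, `B / 𝔮` algebraic over it). Suppose `D ≠ G`. Choose a subgroup `H ⊇ D` of
order `p`; `H = ker χ_a` for some `a ≠ 0`, `y = y_a`. Let `E = L^H` (degree `p` over `F`), `C` the integral closure of `O` in `E`,
`𝔯 = 𝔮 ∩ C`, `e = e(𝔯/𝔪)`. As `y ∈ E`, and `y` has negative order at `𝔯`: `p ord(y) = - e m`, so `p | e`. But the `p` conjugates
of `𝔯` under `G / H` are distinct (if `σ 𝔯 = 𝔯` then `σ 𝔮` and `𝔮` lie over `𝔯`, so `h σ 𝔮 = 𝔮` for some `h ∈ H`, `h σ ∈ D ⊆ H`,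
`σ ∈ H`), so `p e ≤ ∑ e f = [E : F] = p`, `e = 1`: a contradiction. So `D = G`, `𝔮` is the only prime over `𝔪` (`G` is transitive on
them), and `B` is local (every maximal ideal of `B` lies over `𝔪`). -/
def S_LT : Prop := ∀ (p : ℕ) [Fact p.Prime] (O F L : Type u) [CommRing O] [IsDomain O] [IsDiscreteValuationRing O]
  [Field F] [Field L] [Algebra O F] [IsFractionRing O F] [Algebra F L] [Algebra O L] [IsScalarTower O F L]
  [IsAlgClosed (IsLocalRing.ResidueField O)] [MulSemiringAction (Pp p) L] [IsGaloisGroup (Pp p) F L], (p : O) = 0 →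
  ∀ (π : O) (_ : Irreducible π) (m : ZMod p × ZMod p → ℕ),
  (∀ a : ZMod p × ZMod p, a ≠ 0 → ¬ p ∣ m a ∧ ∃ (y : L) (f : F) (e : O), IsUnit e ∧
    (∀ σ : Pp p, σ • y = y + ((chi a σ).val : L)) ∧ y ^ p - y = algebraMap F L f ∧
    f * algebraMap O F π ^ m a = algebraMap O F e) →
  ∃ _ : IsLocalRing (integralClosure O L), ∀ b : integralClosure O L, ∃ c : O,
    b - algebraMap O (integralClosure O L) c ∈ IsLocalRing.maximalIdeal (integralClosure O L)

/-- **LS** (from LB, LC, LT; written by helper477): the formula `δ = ∑_{a ≠ 0} (m_a + 1)`. -/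
def S_LS : Prop := ∀ (p : ℕ) [Fact p.Prime] (O F L : Type u) [CommRing O] [IsDomain O] [IsDiscreteValuationRing O]
  [Field F] [Field L] [Algebra O F] [IsFractionRing O F] [Algebra F L] [Algebra O L] [IsScalarTower O F L]
  [IsAlgClosed (IsLocalRing.ResidueField O)] [MulSemiringAction (Pp p) L] [IsGaloisGroup (Pp p) F L]
  [IsDedekindDomain (integralClosure O L)] [Module.IsTorsionFree O (integralClosure O L)], (p : O) = 0 →
  ∀ (π : O) (_ : Irreducible π) (m : ZMod p × ZMod p → ℕ),
  (∀ a : ZMod p × ZMod p, a ≠ 0 → ¬ p ∣ m a ∧ ∃ (y : L) (f : F) (e : O), IsUnit e ∧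
    (∀ σ : Pp p, σ • y = y + ((chi a σ).val : L)) ∧ y ^ p - y = algebraMap F L f ∧
    f * algebraMap O F π ^ m a = algebraMap O F e) →
  Module.length (integralClosure O L) (integralClosure O L ⧸ differentIdeal O (integralClosure O L)) =
    ((∑ a ∈ Finset.univ.erase (0 : ZMod p × ZMod p), (m a + 1) : ℕ) : ℕ∞)

/-- **OINF** (the local ring at infinity; 80-100 lines). `1/x` is a uniformizer, the residue field is `K` (so algebraically
closed when `K` is), and a polynomial `h` of degree `m` satisfies `h · (1/x)^m ∈ O^×`. -/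
def S_OINF : Prop := ∀ (K : Type u) [Field K] [IsAlgClosed K], IsAlgClosed (IsLocalRing.ResidueField (Oinf K)) ∧
  ∃ π : Oinf K, Irreducible π ∧ ∀ h : K[X], h ≠ 0 → ∃ e : Oinf K, IsUnit e ∧
    algebraMap K[X] (RatFunc K) h * algebraMap (Oinf K) (RatFunc K) π ^ h.natDegree = algebraMap (Oinf K) (RatFunc K) e

/-- **DEG** (from LS, OINF; written by helper477) -/
def S_DEG : Prop := ∀ (p : ℕ) [Fact p.Prime] (K : Type u) [Field K] [IsAlgClosed K] [CharP K p] (c : Cov (Pp p) K)
  (m : ZMod p × ZMod p → ℕ), (∀ a : ZMod p × ZMod p, a ≠ 0 → ¬ p ∣ m a ∧ ∃ (y : c.L) (h : K[X]),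
    (∀ σ : Pp p, σ • y = y + ((chi a σ).val : c.L)) ∧ y ^ p - y = algebraMap K[X] c.L h ∧ h.natDegree = m a) →
  c.deg = ((∑ a ∈ Finset.univ.erase (0 : ZMod p × ZMod p), (m a + 1) : ℕ) : ℕ∞)

end Run7.h477.WC
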