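import Mathlib
import Pool.Agent.Run7.h477.WC.Stm

set_option autoImplicit false
set_option linter.unusedSectionVars false

/-!
# Project WC, piece LS, part 1: invariants of a normal subgroup of a totally ramified group
-/

namespace Run7.h477.WC

open Finset

universe u

section inv

variable {O B : Type u} [CommRing O] [IsDomain O] [IsDiscreteValuationRing O] [CommRing B] [IsDomain B]
  [IsDiscreteValuationRing B] [Algebra O B] [Module.IsTorsionFree O B] [Module.Finite O B]
  {G : Type} [Group G] [Finite G] [MulSemiringAction G B] [IsGaloisGroup G O B] (N : Subgroup G) [N.Normal]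

/-- the ring of invariants -/
abbrev CC (O B : Type u) [CommRing O] [CommRing B] [Algebra O B] {G : Type} [Group G] [MulSemiringAction G B]
    [SMulCommClass G O B] (N : Subgroup G) : Subalgebra O B := FixedPoints.subalgebra O B N

lemma cc_dvd {a b : CC O B N} (h : (a : B) ∣ (b : B)) : a ∣ b := by
  by_cases ha : a = 0
  · subst ha
    have : (b : B) = 0 := by simpa using h
    rw [show b = 0 from Subtype.ext this]
  · obtain ⟨q, hq⟩ := h
    have ha' : (a : B) ≠ 0 := fun hh => ha (Subtype.ext hh)
    have hqN : ∀ n : N, n • q = q := by
      intro n
      have h1 : n • (b : B) = b := b.2 n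
      have h2 : n • (a : B) = a := a.2 n
      rw [hq, smul_mul', h2] at h1
      exact mul_left_cancel₀ ha' h1
    exact ⟨⟨q, hqN⟩, Subtype.ext hq⟩

instance cc_fin : Module.Finite O (CC O B N) :=
  have : IsNoetherian O B := isNoetherian_of_isNoetherianRing_of_finite O B
  Module.Finite.of_injective (CC O B N).val.toLinearMap Subtype.val_injective

instance cc_fin2 : Module.Finite (CC O B N) B := Module.Finite.of_restrictScalars_finite O (CC O B N) B

lemma cc_int : (algebraMap (CC O B N) B).IsIntegral := by
  have : Algebra.IsIntegral (CC O B N) B := inferInstance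
  exact fun x => Algebra.IsIntegral.isIntegral x

lemma cc_inj : Function.Injective (algebraMap (CC O B N) B) := Subtype.val_injective

instance cc_locHom : IsLocalHom (algebraMap (CC O B N) B) := (cc_int N).isLocalHom (cc_inj N)

instance cc_loc : IsLocalRing (CC O B N) := RingHom.domain_isLocalRing (algebraMap (CC O B N) B)

lemma cc_notField : ¬ IsField (CC O B N) := by
  intro h
  have h2 : IsField B := isField_of_isIntegral_of_isField' (R := CC O B N) h
  exact IsDiscreteValuationRing.not_isField B h2

instance cc_noeth : IsNoetherianRing (CC O B N) := IsNoetherianRing.of_finite O (CC O B N)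

instance cc_dvr : IsDiscreteValuationRing (CC O B N) := by
  have h : ValuationRing (CC O B N) := by
    rw [ValuationRing.iff_dvd_total]
    refine ⟨fun a b => ?_⟩
    have h1 : ValuationRing B := inferInstance
    rw [ValuationRing.iff_dvd_total] at h1
    rcases h1.total (a : B) (b : B) with h2 | h2
    · exact Or.inl (cc_dvd N h2)
    · exact Or.inr (cc_dvd N h2)
  exact ((IsDiscreteValuationRing.TFAE (CC O B N) (cc_notField N)).out 1 0).1 h

end inv

end Run7.h477.WC
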