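import Mathlib
import Pool.Agent.Run7.h477.WC.LS1

set_option autoImplicit false
set_option linter.unusedSectionVars false

/-!
# Project WC, piece LS, part 2: ramification index of a step of prime order, quotient groups
-/

namespace Run7.h477.WC

open Finset

universe u

lemma assoc_pow_eq {B : Type u} [CommRing B] [IsDomain B] {t : B} (ht : Irreducible t) {a b : ℕ}
    (h : Associated (t ^ a) (t ^ b)) : a = b := by
  have h1 := (pow_dvd_pow_iff ht.ne_zero ht.not_isUnit).1 h.dvd
  have h2 := (pow_dvd_pow_iff ht.ne_zero ht.not_isUnit).1 h.symm.dvd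
  omega

lemma smul_irred {B : Type u} [CommRing B] {H : Type} [Group H] [MulSemiringAction H B] (h : H) {t : B}
    (ht : Irreducible t) : Irreducible (h • t) :=
  (MulEquiv.irreducible_iff (MulSemiringAction.toRingEquiv H B h)).2 ht

lemma norm_inv {B : Type u} [CommRing B] {H : Type} [Group H] [Fintype H] [MulSemiringAction H B] (g : H) (t : B) :
    g • ∏ h : H, h • t = ∏ h : H, h • t := by
  rw [Finset.smul_prod']
  refine Fintype.prod_equiv (Equiv.mulLeft g) _ _ fun h => ?_
  rw [Equiv.coe_mulLeft, mul_smul]

/-- ramification index of a step of prime order -/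
lemma ep (hLB : S_LB.{u}) {p : ℕ} (hpp : p.Prime) {C B : Type u} [CommRing C] [IsDomain C] [IsDiscreteValuationRing C]
    [CommRing B] [IsDomain B] [IsDiscreteValuationRing B] [Algebra C B] [Module.IsTorsionFree C B] [Module.Finite C B]
    {H : Type} [Group H] [Fintype H] [DecidableEq H] [MulSemiringAction H B] [hH : IsGaloisGroup H C B]
    (hcard : Fintype.card H = p)
    (hres : ∀ b : B, ∃ c : C, b - algebraMap C B c ∈ IsLocalRing.maximalIdeal B)
    {τ : C} (hτ : Irreducible τ) {t : B} (ht : Irreducible t) : Associated (algebraMap C B τ) (t ^ p) := by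
  have hinj : Function.Injective (algebraMap C B) := FaithfulSMul.algebraMap_injective C B
  have hτ0 : algebraMap C B τ ≠ 0 := by
    intro h0
    exact hτ.ne_zero (hinj (by rw [h0, map_zero]))
  obtain ⟨e, he⟩ := IsDiscreteValuationRing.associated_pow_irreducible hτ0 ht
  obtain ⟨c, hc⟩ := hH.isInvariant.isInvariant (∏ h : H, h • t) (fun g => norm_inv g t)
  have hn : Associated (∏ h : H, h • t) (t ^ p) := by
    have h1 : Associated (∏ h : H, h • t) (∏ _h : H, t) :=
      Associated.prod _ _ _ fun h _ => IsDiscreteValuationRing.associated_of_irreducible B (smul_irred h ht) ht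
    rw [prod_const, card_univ, hcard] at h1
    exact h1
  have hc0 : c ≠ 0 := by
    intro h0
    rw [h0, map_zero] at hc
    rw [← hc] at hn
    exact pow_ne_zero p ht.ne_zero (hn.eq_zero_iff.1 rfl)
  obtain ⟨j, hj⟩ := IsDiscreteValuationRing.associated_pow_irreducible hc0 hτ
  have h2 : Associated (algebraMap C B c) (t ^ (e * j)) := by
    have h3 : Associated (algebraMap C B c) (algebraMap C B τ ^ j) := by
      rw [← map_pow]; exact hj.map (algebraMap C B)
    rw [pow_mul]
    exact h3.trans (he.pow_pow)
  rw [hc] at h2
  have h3 := assoc_pow_eq ht (hn.symm.trans h2)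
  have h4 : e ∣ p := ⟨j, h3⟩
  rcases (Nat.dvd_prime hpp).1 h4 with h5 | h5
  · exfalso
    subst h5
    rw [pow_one] at he
    have hirr : Irreducible (algebraMap C B τ) := he.symm.irreducible ht
    have h6 := (hLB C B H hres _ hirr).1
    have h7 : ∀ b : B, ∃ c : C, algebraMap C B c = b := by
      intro b
      have h8 : b ∈ Algebra.adjoin C {algebraMap C B τ} := by rw [h6]; trivial
      have h9 : Algebra.adjoin C {algebraMap C B τ} ≤ (⊥ : Subalgebra C B) := by
        rw [Algebra.adjoin_le_iff]
        rintro x rfl
        exact Subalgebra.algebraMap_mem _ τ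
      exact Algebra.mem_bot.1 (h9 h8)
    have h8 : ∀ g h : H, g = h := by
      intro g h
      have := hH.faithful
      have := hH.commutes
      apply FaithfulSMul.eq_of_smul_eq_smul (α := B)
      intro b
      obtain ⟨c, rfl⟩ := h7 b
      rw [smul_algebraMap, smul_algebraMap]
    have h9 : Fintype.card H ≤ 1 := Fintype.card_le_one_iff.2 h8
    have := hpp.two_le
    omega
  · rw [h5] at he
    exact he

section inv

variable {O B : Type u} [CommRing O] [IsDomain O] [IsDiscreteValuationRing O] [CommRing B] [IsDomain B]
  [IsDiscreteValuationRing B] [Algebra O B] [Module.IsTorsionFree O B] [Module.Finite O B]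
  {G : Type} [Group G] [Finite G] [MulSemiringAction G B] [hG : IsGaloisGroup G O B] (N : Subgroup G) [N.Normal]

instance cc_tf : Module.IsTorsionFree (CC O B N) B := inferInstance

instance cc_tf2 : Module.IsTorsionFree O (CC O B N) := inferInstance

lemma coe_mk_smul (s : G) (x : CC O B N) : (((QuotientGroup.mk s : G ⧸ N) • x : CC O B N) : B) = s • (x : B) := rfl

instance cc_gal : IsGaloisGroup (G ⧸ N) O (CC O B N) := by
  letI : MulSemiringAction G (CC O B N) := MulSemiringAction.compHom _ (QuotientGroup.mk' N)
  have e1 : ∀ (g : G) (x : CC O B N), ((g • x : CC O B N) : B) = g • (x : B) := fun g x => rfl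
  haveI : SMulDistribClass G (CC O B N) B := ⟨fun g c b => by
    rw [Algebra.smul_def, Algebra.smul_def, smul_mul']
    rfl⟩
  haveI : IsScalarTower G (G ⧸ N) (CC O B N) := ⟨fun g q x => by
    induction q using QuotientGroup.induction_on with
    | H s =>
      have : g • (QuotientGroup.mk s : G ⧸ N) = (QuotientGroup.mk (g * s) : G ⧸ N) := rfl
      rw [this]
      apply Subtype.ext
      rw [coe_mk_smul, e1, coe_mk_smul, mul_smul]⟩
  exact IsGaloisGroup.quotient G O (CC O B N) B N

end inv

end Run7.h477.WC
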