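import Mathlib
import Pool.Agent.Run7.h477.WC.LS2

set_option autoImplicit false
set_option linter.unusedSectionVars false

/-!
# Project WC, piece LS, part 3: one subgroup of order `p`
-/

namespace Run7.h477.WC

open Finset

universe u

lemma ord_irred {B : Type u} [CommRing B] [IsDomain B] [IsDiscreteValuationRing B] {t : B} (ht : Irreducible t) :
    Ring.ord B t = 1 := by
  unfold Ring.ord
  rw [Module.length_eq_one_iff, isSimpleModule_iff_isCoatom, ← (IsDiscreteValuationRing.irreducible_iff_uniformizer t).1 ht]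
  exact (IsLocalRing.maximalIdeal.isMaximal B).out

lemma ord_pow_irred {B : Type u} [CommRing B] [IsDomain B] [IsDiscreteValuationRing B] {t : B} (ht : Irreducible t)
    (n : ℕ) : Ring.ord B (t ^ n) = n := by
  rw [Ring.ord_pow (mem_nonZeroDivisors_of_ne_zero ht.ne_zero), ord_irred ht]
  simp

lemma ord_prod {B : Type u} [CommRing B] [IsDomain B] {ι : Type} (s : Finset ι) (f : ι → B) (h : ∀ i ∈ s, f i ≠ 0) :
    Ring.ord B (∏ i ∈ s, f i) = ∑ i ∈ s, Ring.ord B (f i) := by
  classical
  induction s using Finset.induction_on with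
  | empty => simp [Ring.ord_one]
  | insert a s ha ih =>
    rw [prod_insert ha, sum_insert ha, Ring.ord_mul B, ih fun i hi => h i (mem_insert_of_mem hi)]
    apply mem_nonZeroDivisors_of_ne_zero
    rw [prod_ne_zero_iff]
    exact fun i hi => h i (mem_insert_of_mem hi)

lemma ord_congr {B : Type u} [CommRing B] {x y : B} (h : Ideal.span {x} = Ideal.span {y}) :
    Ring.ord B x = Ring.ord B y := by
  unfold Ring.ord
  rw [h]

attribute [local instance] FractionRing.liftAlgebra FractionRing.isScalarTower_liftAlgebra in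
theorem tow (hLB : S_LB.{u}) (hLC : S_LC.{u}) {p : ℕ} [hpp : Fact p.Prime] {O B : Type u} [CommRing O] [IsDomain O]
    [IsDiscreteValuationRing O] [CommRing B] [IsDomain B]
    [IsDiscreteValuationRing B] [Algebra O B] [Module.IsTorsionFree O B] [Module.Finite O B]
    {G : Type} [CommGroup G] [Fintype G] [DecidableEq G] [MulSemiringAction G B] [hG : IsGaloisGroup G O B]
    (hres : ∀ b : B, ∃ c : O, b - algebraMap O B c ∈ IsLocalRing.maximalIdeal B) (hp : (p : O) = 0)
    (N : Subgroup G) [DecidablePred (· ∈ N)] (hN : Nat.card N = p) (hcard : Nat.card G = p ^ 2)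
    (hexp : ∀ s : G, s ^ p = 1)
    (m : ℕ) (hm : ¬ p ∣ m) (z : B) (π : O) (hπ : Irreducible π)
    (hzπ : Associated (z ^ p) (algebraMap O B π ^ m)) (hzN : ∀ s ∈ N, s • z = z)
    (hz : ∀ s : G, s ∉ N → ∃ c : ℕ, ¬ p ∣ c ∧ z = (s • z) * (1 + c * z)) (t : B) (ht : Irreducible t) :
    Ring.ord B (∏ s ∈ univ.erase (1 : G), (t - s • t)) =
      Ring.ord B (∏ h ∈ univ.erase (1 : N), (t - h • t)) + ((p * ((m + 1) * (p - 1)) : ℕ) : ℕ∞) := by
  classical
  have hpr := hpp.out
  have hresCB : ∀ b : B, ∃ c : CC O B N, b - algebraMap (CC O B N) B c ∈ IsLocalRing.maximalIdeal B := by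
    intro b
    obtain ⟨c, hc⟩ := hres b
    exact ⟨algebraMap O (CC O B N) c, hc⟩
  have hresOC : ∀ c : CC O B N, ∃ o : O, c - algebraMap O (CC O B N) o ∈ IsLocalRing.maximalIdeal (CC O B N) := by
    intro c
    obtain ⟨o, ho⟩ := hres (c : B)
    refine ⟨o, ?_⟩
    rw [IsLocalRing.mem_maximalIdeal, mem_nonunits_iff] at ho ⊢
    intro hu
    exact ho (hu.map (algebraMap (CC O B N) B))
  obtain ⟨τ, hτ⟩ := IsDiscreteValuationRing.exists_irreducible (CC O B N)
  have cardN : Fintype.card N = p := by rw [← Nat.card_eq_fintype_card, hN]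
  have cardQ : Fintype.card (G ⧸ N) = p := by
    have h1 := Subgroup.card_eq_card_quotient_mul_card_subgroup N
    rw [hN, hcard, pow_two] at h1
    have h2 := Nat.eq_of_mul_eq_mul_right hpr.pos h1
    rw [← Nat.card_eq_fintype_card, ← h2]
  have e1 := ep hLB hpr cardN hresCB hτ ht
  have e2 := ep hLB hpr cardQ hresOC hπ hτ
  obtain ⟨_, hD1⟩ := hLB (CC O B N) B N hresCB t ht
  obtain ⟨hA2, hD2⟩ := hLB O (CC O B N) (G ⧸ N) hresOC τ hτ
  obtain ⟨_, hD3⟩ := hLB O B G hres t ht
  -- `z` in the ring of invariants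
  let z' : CC O B N := ⟨z, fun n => hzN n n.2⟩
  have hπB : algebraMap O B π = algebraMap (CC O B N) B (algebraMap O (CC O B N) π) := rfl
  have hz'0 : z' ≠ 0 := by
    intro h0
    have h1 : z = 0 := congrArg Subtype.val h0
    rw [h1, zero_pow hpr.ne_zero] at hzπ
    have h2 := hzπ.eq_zero_iff.1 rfl
    have h3 : algebraMap O B π ≠ 0 := by
      intro h4
      exact hπ.ne_zero (FaithfulSMul.algebraMap_injective O B (by rw [h4, map_zero]))
    exact pow_ne_zero m h3 h2
  obtain ⟨j, hj⟩ := IsDiscreteValuationRing.associated_pow_irreducible hz'0 hτ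
  have hjm : j = m := by
    have h1 : Associated z (t ^ (p * j)) := by
      have h2 : Associated z (algebraMap (CC O B N) B τ ^ j) := by
        rw [← map_pow]; exact hj.map (algebraMap (CC O B N) B)
      rw [pow_mul]; exact h2.trans e1.pow_pow
    have h2 : Associated (z ^ p) (t ^ (p * j * p)) := by
      rw [pow_mul]; exact h1.pow_pow
    have h3 : Associated (algebraMap O B π ^ m) (t ^ (p * p * m)) := by
      rw [pow_mul]
      refine Associated.pow_pow ?_
      rw [hπB, pow_mul]
      refine (e2.map (algebraMap (CC O B N) B)).trans ?_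
      rw [map_pow]
      exact e1.pow_pow
    have h4 := assoc_pow_eq ht ((h2.symm.trans hzπ).trans h3)
    have h5 : p * p * j = p * p * m := by rw [← h4]; ring
    exact Nat.eq_of_mul_eq_mul_left (Nat.mul_pos hpr.pos hpr.pos) h5
  subst hjm
  -- the ramification numbers of the quotient
  have hpC : (p : CC O B N) = 0 := by
    have := congrArg (algebraMap O (CC O B N)) hp
    rwa [map_natCast, map_zero] at this
  have hstep : ∀ q : G ⧸ N, q ≠ 1 → Associated (τ - q • τ) (τ ^ (j + 1)) := by
    intro q hq
    obtain ⟨s, rfl⟩ := QuotientGroup.mk_surjective q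
    have hsN : s ∉ N := by
      intro h
      exact hq ((QuotientGroup.eq_one_iff s).2 h)
    obtain ⟨c, hc, hzc⟩ := hz s hsN
    set h : CC O B N ≃+* CC O B N := MulSemiringAction.toRingEquiv (G ⧸ N) (CC O B N) (QuotientGroup.mk s) with hh
    have hap : ∀ x, h x = (QuotientGroup.mk s : G ⧸ N) • x := fun x => rfl
    have a1 : ∀ b, (h^[p]) b = b := by
      intro b
      have : (⇑h)^[p] b = ((QuotientGroup.mk s : G ⧸ N) ^ p) • b := smul_iterate_apply (QuotientGroup.mk s : G ⧸ N) p b
      rw [this, ← QuotientGroup.mk_pow, hexp, QuotientGroup.mk_one, one_smul]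
    have a2 : ∀ b, h b - b ∈ IsLocalRing.maximalIdeal (CC O B N) := by
      intro b
      obtain ⟨o, ho⟩ := hresOC b
      have h1 : h b - b = h (b - algebraMap O (CC O B N) o) - (b - algebraMap O (CC O B N) o) := by
        rw [map_sub]
        have : h (algebraMap O (CC O B N) o) = algebraMap O (CC O B N) o := by
          rw [hap]; exact smul_algebraMap _ _
        rw [this]; ring
      rw [h1]
      refine Ideal.sub_mem _ ?_ ho
      rw [IsLocalRing.mem_maximalIdeal, mem_nonunits_iff] at ho ⊢
      rwa [MulEquiv.isUnit_map h]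
    have a3 : ∀ b, (h τ - τ) ∣ (h b - b) := by
      intro b
      have hb : b ∈ Algebra.adjoin O {τ} := by rw [hA2]; trivial
      induction hb using Algebra.adjoin_induction with
      | mem x hx => rw [Set.mem_singleton_iff.1 hx]
      | algebraMap r =>
        have : h (algebraMap O (CC O B N) r) = algebraMap O (CC O B N) r := by
          rw [hap]; exact smul_algebraMap _ _
        rw [this, sub_self]; exact dvd_zero _
      | add x y _ _ hx hy =>
        have : h (x + y) - (x + y) = (h x - x) + (h y - y) := by rw [map_add]; ring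
        rw [this]; exact dvd_add hx hy
      | mul x y _ _ hx hy =>
        have : h (x * y) - (x * y) = h x * (h y - y) + (h x - x) * y := by rw [map_mul]; ring
        rw [this]; exact dvd_add (hy.mul_left _) (hx.mul_right _)
    have a4 : z' = h z' * (1 + c * z') := by
      apply Subtype.ext
      exact hzc
    have h5 := hLC p (CC O B N) hpC h a1 a2 τ hτ a3 z' j c hm hc hj a4
    have h6 : τ - (QuotientGroup.mk s : G ⧸ N) • τ = - (h τ - τ) := by rw [hap]; ring
    rw [h6]
    exact h5.neg_left
  have hD2' : Associated (∏ q ∈ univ.erase (1 : G ⧸ N), (τ - q • τ)) (τ ^ ((j + 1) * (p - 1))) := by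
    have h1 : Associated (∏ q ∈ univ.erase (1 : G ⧸ N), (τ - q • τ)) (∏ _q ∈ univ.erase (1 : G ⧸ N), τ ^ (j + 1)) :=
      Associated.prod _ _ _ fun q hq => hstep q (ne_of_mem_erase hq)
    rw [prod_const, card_erase_of_mem (mem_univ _), card_univ, cardQ, ← pow_mul] at h1
    exact h1
  -- transitivity of the different
  letI := IsFractionRing.mulSemiringAction G B (FractionRing B)
  have hgal : IsGalois (FractionRing O) (FractionRing B) := IsGaloisGroup.isGalois G (FractionRing O) (FractionRing B)
  have htr := differentIdeal_eq_differentIdeal_mul_differentIdeal O (CC O B N) B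
  rw [hD1, hD2, hD3, Ideal.map_span, Set.image_singleton, Ideal.span_singleton_mul_span_singleton] at htr
  rw [ord_congr htr]
  have hD2'' : Associated (algebraMap (CC O B N) B (∏ q ∈ univ.erase (1 : G ⧸ N), (τ - q • τ)))
      (t ^ (p * ((j + 1) * (p - 1)))) := by
    refine (hD2'.map (algebraMap (CC O B N) B)).trans ?_
    rw [map_pow, pow_mul t p]
    exact e1.pow_pow
  rw [Ring.ord_mul B, Ring.ord_eq_of_associated hD2'', ord_pow_irred ht]
  apply mem_nonZeroDivisors_of_ne_zero
  intro h0
  rw [h0] at hD2''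
  exact pow_ne_zero _ ht.ne_zero (hD2''.eq_zero_iff.1 rfl)

end Run7.h477.WC
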