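import Mathlib
import Pool.Agent.Run7.h477.WC.LS3

set_option autoImplicit false
set_option linter.unusedSectionVars false

/-!
# Project WC, piece LS, part 4: counting characters, and the formula for the degree of the different
-/

namespace Run7.h477.WC

open Finset

universe u

section count

variable {p : ℕ} [hpp : Fact p.Prime]

/-- orthogonal vectors -/
lemma card_orth (v : ZMod p × ZMod p) (hv : v ≠ 0) :
    Fintype.card {w : ZMod p × ZMod p // v.1 * w.1 + v.2 * w.2 = 0} = p := by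
  classical
  have h : Fintype.card (ZMod p) = p := ZMod.card p
  refine Eq.trans ?_ h
  symm
  apply Fintype.card_of_bijective (f := fun c : ZMod p =>
    (⟨(-v.2 * c, v.1 * c), by ring⟩ : {w : ZMod p × ZMod p // v.1 * w.1 + v.2 * w.2 = 0}))
  constructor
  · intro c c' hcc
    have h1 := congrArg Subtype.val hcc
    rw [Prod.mk.injEq] at h1
    by_cases h2 : v.1 = 0
    · have h3 : v.2 ≠ 0 := fun h3 => hv (Prod.ext h2 h3)
      exact mul_left_cancel₀ (neg_ne_zero.2 h3) h1.1
    · exact mul_left_cancel₀ h2 h1.2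
  · rintro ⟨w, hw⟩
    by_cases h2 : v.1 = 0
    · have h3 : v.2 ≠ 0 := fun h3 => hv (Prod.ext h2 h3)
      rw [h2, zero_mul, zero_add] at hw
      have h4 : w.2 = 0 := (mul_eq_zero.1 hw).resolve_left h3
      refine ⟨-w.1 / v.2, Subtype.ext (Prod.ext ?_ ?_)⟩
      · show -v.2 * (-w.1 / v.2) = w.1
        field_simp
      · show v.1 * (-w.1 / v.2) = w.2
        rw [h2, h4, zero_mul]
    · refine ⟨w.2 / v.1, Subtype.ext (Prod.ext ?_ ?_)⟩
      · show -v.2 * (w.2 / v.1) = w.1
        field_simp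
        linear_combination -hw
      · show v.1 * (w.2 / v.1) = w.2
        field_simp

lemma chi_mul (a : ZMod p × ZMod p) (s t : Pp p) : chi a (s * t) = chi a s + chi a t := by
  unfold chi
  rw [toAdd_mul, Prod.fst_add, Prod.snd_add]
  ring

lemma chi_one (a : ZMod p × ZMod p) : chi a (1 : Pp p) = 0 := by
  unfold chi
  rw [toAdd_one, Prod.fst_zero, Prod.snd_zero]
  ring

/-- the kernel of a character -/
def kerS (a : ZMod p × ZMod p) : Subgroup (Pp p) where
  carrier := {s | chi a s = 0}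
  mul_mem' := by
    intro s t hs ht
    rw [Set.mem_ofPred_eq] at hs ht ⊢
    rw [chi_mul, hs, ht, add_zero]
  one_mem' := chi_one a
  inv_mem' := by
    intro s hs
    rw [Set.mem_ofPred_eq] at hs ⊢
    have h := chi_mul a s s⁻¹
    rw [mul_inv_cancel, chi_one, hs, zero_add] at h
    exact h.symm

lemma mem_kerS {a : ZMod p × ZMod p} {s : Pp p} : s ∈ kerS a ↔ chi a s = 0 := Iff.rfl

instance (a : ZMod p × ZMod p) : DecidablePred (· ∈ kerS a) := fun s => decidable_of_iff (chi a s = 0) Iff.rfl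

lemma card_kerS (a : ZMod p × ZMod p) (ha : a ≠ 0) : Nat.card (kerS a) = p := by
  refine Eq.trans ?_ (card_orth a ha)
  rw [← Nat.card_eq_fintype_card]
  exact Nat.card_congr ⟨fun s => ⟨Multiplicative.toAdd s.1, s.2⟩, fun w => ⟨Multiplicative.ofAdd w.1, w.2⟩,
    fun s => rfl, fun w => rfl⟩

lemma card_Pp : Nat.card (Pp p) = p ^ 2 := by
  rw [Nat.card_eq_fintype_card, Fintype.card_multiplicative, Fintype.card_prod, ZMod.card]
  ring

lemma Pp_exp (s : Pp p) : s ^ p = 1 := by
  apply Multiplicative.toAdd.injective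
  rw [toAdd_pow, toAdd_one]
  apply Prod.ext
  · rw [Prod.smul_fst, nsmul_eq_mul, CharP.cast_eq_zero, zero_mul]; rfl
  · rw [Prod.smul_snd, nsmul_eq_mul, CharP.cast_eq_zero, zero_mul]; rfl

/-- `∑_{a ≠ 0} ∑_{h ∈ ker a, h ≠ 1} k h = (p - 1) ∑_{h ≠ 1} k h` -/
lemma sum_ker (k : Pp p → ℕ) :
    ∑ a ∈ univ.erase (0 : ZMod p × ZMod p), ∑ h ∈ univ.erase (1 : kerS a), k h =
      (p - 1) * ∑ h ∈ univ.erase (1 : Pp p), k h := by
  classical
  have h1 : ∀ a : ZMod p × ZMod p, ∑ h ∈ univ.erase (1 : kerS a), k h =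
      ∑ h ∈ univ.erase (1 : Pp p), if chi a h = 0 then k h else 0 := by
    intro a
    rw [← sum_filter]
    refine sum_nbij (fun h => (h : Pp p)) ?_ ?_ ?_ ?_
    · intro h hh
      rw [mem_filter, mem_erase]
      refine ⟨⟨?_, mem_univ _⟩, h.2⟩
      intro h1
      exact ne_of_mem_erase hh (Subtype.ext h1)
    · exact Subtype.val_injective.injOn
    · intro s hs
      rw [mem_coe, mem_filter, mem_erase] at hs
      refine ⟨⟨s, hs.2⟩, ?_, rfl⟩
      rw [mem_coe, mem_erase]
      exact ⟨fun h1 => hs.1.1 (congrArg Subtype.val h1), mem_univ _⟩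
    · intro h _; rfl
  simp_rw [h1]
  rw [sum_comm, mul_sum]
  refine sum_congr rfl fun s hs => ?_
  rw [← sum_filter, sum_const, smul_eq_mul]
  congr 1
  have hs1 : Multiplicative.toAdd s ≠ 0 := fun h => ne_of_mem_erase hs (Multiplicative.toAdd.injective h)
  have h2 := card_orth (Multiplicative.toAdd s) hs1
  rw [Fintype.card_subtype] at h2
  have h3 : (univ.filter fun w : ZMod p × ZMod p => (Multiplicative.toAdd s).1 * w.1 + (Multiplicative.toAdd s).2 * w.2 = 0) =
      univ.filter fun a : ZMod p × ZMod p => chi a s = 0 := by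
    apply filter_congr
    intro a _
    unfold chi
    rw [mul_comm, mul_comm (Multiplicative.toAdd s).2]
  rw [h3] at h2
  have h4 : (univ.erase (0 : ZMod p × ZMod p)).filter (fun a => chi a s = 0) =
      (univ.filter fun a : ZMod p × ZMod p => chi a s = 0).erase 0 := by
    ext a
    simp only [mem_filter, mem_erase, mem_univ, true_and, and_true]
  rw [h4, card_erase_of_mem, h2]
  rw [mem_filter]
  refine ⟨mem_univ _, ?_⟩
  unfold chi
  rw [Prod.fst_zero, Prod.snd_zero]; ring

/-- the final count -/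
lemma final_count (k : Pp p → ℕ) (m : ZMod p × ZMod p → ℕ)
    (h : ∀ a : ZMod p × ZMod p, a ≠ 0 → ∑ s ∈ univ.erase (1 : Pp p), k s =
      ∑ h ∈ univ.erase (1 : kerS a), k h + p * ((m a + 1) * (p - 1))) :
    ∑ s ∈ univ.erase (1 : Pp p), k s = ∑ a ∈ univ.erase (0 : ZMod p × ZMod p), (m a + 1) := by
  have hp1 := hpp.out.one_lt
  have h1 := sum_congr rfl fun a (ha : a ∈ univ.erase (0 : ZMod p × ZMod p)) => h a (ne_of_mem_erase ha)
  rw [sum_add_distrib, sum_ker, sum_const, card_erase_of_mem (mem_univ _), card_univ, Fintype.card_prod, ZMod.card,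
    smul_eq_mul, ← mul_sum, ← sum_mul] at h1
  set S := ∑ s ∈ univ.erase (1 : Pp p), k s
  set T := ∑ a ∈ univ.erase (0 : ZMod p × ZMod p), (m a + 1)
  obtain ⟨q, rfl⟩ : ∃ q, p = q + 1 := ⟨p - 1, by omega⟩
  have e1 : (q + 1) * (q + 1) - 1 = q * q + 2 * q := by
    have : (q + 1) * (q + 1) = q * q + 2 * q + 1 := by ring
    omega
  rw [e1, Nat.add_sub_cancel] at h1
  have hq : 0 < q := by omega
  have h2 : (q + 1) * q * S = (q + 1) * q * T := by nlinarith
  exact Nat.eq_of_mul_eq_mul_left (by positivity) h2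

end count

end Run7.h477.WC
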