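import Mathlib
import Pool.Agent.Run7.h477.WC.LS4

set_option autoImplicit false
set_option linter.unusedSectionVars false

/-!
# Project WC, piece LS, part 5: the formula for the degree of the different
-/

namespace Run7.h477.WC

open Finset Polynomial

universe u

/-- the inverse of an Artin-Schreier generator with a pole is integral, and `z ^ p ~ π ^ m` -/
lemma z_int {p : ℕ} (hpr : p.Prime) {O F L : Type u} [CommRing O] [IsDomain O] [IsDiscreteValuationRing O] [Field F] [Field L] [Algebra O F]
    [IsFractionRing O F] [Algebra F L] [Algebra O L] [IsScalarTower O F L] {π e : O} (he : IsUnit e) {m : ℕ} {y : L} {f : F}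
    (hy : y ≠ 0) (h1 : y ^ p - y = algebraMap F L f) (h2 : f * algebraMap O F π ^ m = algebraMap O F e) :
    y⁻¹ ^ p * algebraMap O L e = algebraMap O L π ^ m * (1 - y⁻¹ ^ (p - 1)) ∧ IsIntegral O y⁻¹ := by
  have hp2 := hpr.two_le
  have e1 : y⁻¹ ^ p * algebraMap O L e = algebraMap O L π ^ m * (1 - y⁻¹ ^ (p - 1)) := by
    have h3 : algebraMap O L e = (y ^ p - y) * algebraMap O L π ^ m := by
      rw [h1, IsScalarTower.algebraMap_apply O F L e, ← h2, map_mul, map_pow, ← IsScalarTower.algebraMap_apply]
    rw [h3]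
    have h4 : y⁻¹ ^ p * (y ^ p - y) = 1 - y⁻¹ ^ (p - 1) := by
      rw [mul_sub, ← mul_pow, inv_mul_cancel₀ hy, one_pow]
      congr 1
      obtain ⟨q, rfl⟩ : ∃ q, p = q + 1 := ⟨p - 1, by omega⟩
      rw [Nat.add_sub_cancel, pow_succ, mul_assoc, inv_mul_cancel₀ hy, mul_one]
    rw [← mul_assoc, h4]; ring
  refine ⟨e1, ?_⟩
  obtain ⟨u, rfl⟩ := he
  set c : O := ((u⁻¹ : Oˣ) : O) * π ^ m with hc
  refine ⟨X ^ p + (C c * X ^ (p - 1) - C c), ?_, ?_⟩
  · apply monic_X_pow_add
    refine lt_of_le_of_lt (degree_sub_le _ _) (max_lt ?_ ?_)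
    · refine lt_of_le_of_lt (degree_C_mul_X_pow_le _ _) ?_
      exact_mod_cast (by omega : p - 1 < p)
    · refine lt_of_le_of_lt degree_C_le ?_
      exact_mod_cast (by omega : 0 < p)
  · simp only [eval₂_add, eval₂_sub, eval₂_mul, eval₂_pow, eval₂_X, eval₂_C]
    have hu : algebraMap O L ((u⁻¹ : Oˣ) : O) * algebraMap O L (u : O) = 1 := by
      rw [← map_mul, Units.inv_mul, map_one]
    have h5 : algebraMap O L c = algebraMap O L ((u⁻¹ : Oˣ) : O) * algebraMap O L π ^ m := by
      rw [hc, map_mul, map_pow]
    rw [h5]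
    have h6 : y⁻¹ ^ p = (algebraMap O L ((u⁻¹ : Oˣ) : O) * algebraMap O L (u : O)) * y⁻¹ ^ p := by rw [hu, one_mul]
    rw [h6]
    linear_combination (algebraMap O L ((u⁻¹ : Oˣ) : O)) * e1

theorem ls (hLB : S_LB.{u}) (hLC : S_LC.{u}) (hLT : S_LT.{u}) : S_LS.{u} := by
  intro p hpp O F L _ _ _ _ _ _ _ _ _ _ _ _ hG _ _ hp π hπ m hm
  classical
  have hpr := hpp.out
  obtain ⟨hloc, hres⟩ := hLT p O F L hp π hπ m hm
  have := hG.commutes
  have hgal : IsGalois F L := IsGaloisGroup.isGalois (Pp p) F L
  have hfd : FiniteDimensional F L := IsGaloisGroup.finiteDimensional (Pp p) F L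
  have : SMulCommClass (Pp p) O L := ⟨fun s o l => by
    rw [Algebra.smul_def, Algebra.smul_def, smul_mul', IsScalarTower.algebraMap_apply O F L, smul_algebraMap]⟩
  have hfr : IsFractionRing (integralClosure O L) L := integralClosure.isFractionRing_of_finite_extension F L
  have hfin : Module.Finite O (integralClosure O L) := IsIntegralClosure.finite O F L (integralClosure O L)
  have hgg : IsGaloisGroup (Pp p) O (integralClosure O L) := IsGaloisGroup.of_isFractionRing (Pp p) O (integralClosure O L) F L
  have hinj : Function.Injective (algebraMap O (integralClosure O L)) :=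
    FaithfulSMul.algebraMap_injective O (integralClosure O L)
  have hnf : ¬ IsField (integralClosure O L) := by
    intro h
    exact IsDiscreteValuationRing.not_isField O (isField_of_isIntegral_of_isField hinj h)
  have hdvr : IsDiscreteValuationRing (integralClosure O L) :=
    ((IsDiscreteValuationRing.TFAE (integralClosure O L) hnf).out 2 0).1 (inferInstance : IsDedekindDomain (integralClosure O L))
  obtain ⟨t, ht⟩ := IsDiscreteValuationRing.exists_irreducible (integralClosure O L)
  obtain ⟨hA, hD⟩ := hLB O (integralClosure O L) (Pp p) hres t ht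
  -- the numbers `k s`
  have hne : ∀ s : Pp p, s ≠ 1 → t - s • t ≠ 0 := by
    intro s hs h0
    apply hs
    have := hgg.faithful
    apply FaithfulSMul.eq_of_smul_eq_smul (α := integralClosure O L)
    intro b
    rw [one_smul]
    have hb : b ∈ Algebra.adjoin O {t} := by rw [hA]; trivial
    induction hb using Algebra.adjoin_induction with
    | mem x hx => rw [Set.mem_singleton_iff.1 hx]; exact (sub_eq_zero.1 h0).symm
    | algebraMap r => exact smul_algebraMap _ _
    | add x y _ _ hx hy => rw [smul_add, hx, hy]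
    | mul x y _ _ hx hy => rw [smul_mul', hx, hy]
  have hk : ∀ s : Pp p, ∃ k : ℕ, s ≠ 1 → Ring.ord (integralClosure O L) (t - s • t) = k := by
    intro s
    by_cases hs : s = 1
    · exact ⟨0, fun h => absurd hs h⟩
    · obtain ⟨k, hk⟩ := IsDiscreteValuationRing.associated_pow_irreducible (hne s hs) ht
      exact ⟨k, fun _ => by rw [Ring.ord_eq_of_associated hk, ord_pow_irred ht]⟩
  choose k hk using hk
  have hord : Ring.ord (integralClosure O L) (∏ s ∈ univ.erase (1 : Pp p), (t - s • t)) =
      ((∑ s ∈ univ.erase (1 : Pp p), k s : ℕ) : ℕ∞) := by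
    rw [ord_prod _ _ fun s hs => hne s (ne_of_mem_erase hs), Nat.cast_sum]
    exact sum_congr rfl fun s hs => hk s (ne_of_mem_erase hs)
  have hgoal : ∑ s ∈ univ.erase (1 : Pp p), k s = ∑ a ∈ univ.erase (0 : ZMod p × ZMod p), (m a + 1) := by
    apply final_count
    intro a ha
    obtain ⟨hma, y, f, e, he, hy1, hy2, hy3⟩ := hm a ha
    have hm1 : 1 ≤ m a := by
      by_contra h
      have : m a = 0 := by omega
      exact hma (this ▸ dvd_zero p)
    have hpL : (p : L) = 0 := by
      have := congrArg (algebraMap O L) hp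
      rwa [map_natCast, map_zero] at this
    have hch : CharP L p := (CharP.charP_iff_prime_eq_zero hpr).2 hpL
    have hval : ∀ c : ZMod p, c ≠ 0 → ¬ p ∣ c.val := by
      intro c hc h0
      have h1 := Nat.eq_zero_of_dvd_of_lt h0 (ZMod.val_lt c)
      exact hc ((ZMod.val_eq_zero c).1 h1)
    have hcast : ∀ c : ZMod p, c ≠ 0 → ((c.val : ℕ) : L) ≠ 0 := by
      intro c hc h0
      rw [CharP.cast_eq_zero_iff L p] at h0
      exact hval c hc h0
    have hy0 : y ≠ 0 := by
      intro h0
      have h1 : ∀ s : Pp p, ((chi a s).val : L) = 0 := by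
        intro s
        have := hy1 s
        rw [h0, smul_zero, zero_add] at this
        exact this.symm
      have h2 : ∀ s : Pp p, chi a s = 0 := fun s => by
        by_contra h3
        exact hcast _ h3 (h1 s)
      apply ha
      apply Prod.ext
      · have := h2 (Multiplicative.ofAdd (1, 0))
        simpa [chi] using this
      · have := h2 (Multiplicative.ofAdd (0, 1))
        simpa [chi] using this
    obtain ⟨hz1, hz2⟩ := z_int hpr he hy0 hy2 hy3
    set z : integralClosure O L := ⟨y⁻¹, hz2⟩ with hz
    have hz1' : z ^ p * algebraMap O (integralClosure O L) e =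
        algebraMap O (integralClosure O L) π ^ m a * (1 - z ^ (p - 1)) := Subtype.ext hz1
    have hloch : IsLocalHom (algebraMap O (integralClosure O L)) :=
      RingHom.IsIntegral.isLocalHom (fun x => Algebra.IsIntegral.isIntegral x) hinj
    have hπu : ¬ IsUnit (algebraMap O (integralClosure O L) π) := fun h => hπ.not_isUnit (isUnit_of_map_unit _ _ h)
    have hzu : ¬ IsUnit z := by
      intro h
      have h3 : IsUnit (algebraMap O (integralClosure O L) π ^ m a * (1 - z ^ (p - 1))) := by
        rw [← hz1']
        exact (h.pow p).mul (he.map _)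
      exact hπu (isUnit_pow_iff (by omega) |>.1 (isUnit_of_mul_isUnit_left h3))
    have h1u : IsUnit (1 - z ^ (p - 1)) := by
      apply IsLocalRing.isUnit_one_sub_self_of_mem_nonunits
      rw [mem_nonunits_iff]
      intro h
      have := hpr.two_le
      exact hzu ((isUnit_pow_iff (by omega : p - 1 ≠ 0)).1 h)
    have hass : Associated (z ^ p) (algebraMap O (integralClosure O L) π ^ m a) := by
      have h3 : Associated (z ^ p) (z ^ p * algebraMap O (integralClosure O L) e) :=
        (associated_mul_unit_right _ _ (he.map _))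
      have h4 : Associated (algebraMap O (integralClosure O L) π ^ m a)
          (algebraMap O (integralClosure O L) π ^ m a * (1 - z ^ (p - 1))) := associated_mul_unit_right _ _ h1u
      rw [hz1'] at h3
      exact h3.trans h4.symm
    have hzN : ∀ s ∈ kerS a, s • z = z := by
      intro s hs
      apply Subtype.ext
      rw [integralClosure.coe_smul]
      show s • y⁻¹ = y⁻¹
      rw [smul_inv'', hy1 s, mem_kerS.1 hs, ZMod.val_zero, Nat.cast_zero, add_zero]
    have hzs : ∀ s : Pp p, s ∉ kerS a → ∃ c : ℕ, ¬ p ∣ c ∧ z = (s • z) * (1 + c * z) := by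
      intro s hs
      refine ⟨(chi a s).val, hval _ hs, ?_⟩
      apply Subtype.ext
      show y⁻¹ = (s • y⁻¹) * (1 + (((chi a s).val : integralClosure O L) : L) * y⁻¹)
      have e3 : (((chi a s).val : integralClosure O L) : L) = ((chi a s).val : L) := by norm_cast
      rw [e3, smul_inv'', hy1 s]
      have hsy : y + ((chi a s).val : L) ≠ 0 := by
        rw [← hy1 s]
        exact (smul_ne_zero_iff_ne s).2 hy0
      field_simp
    have htow := tow hLB hLC hres hp (kerS a) (card_kerS a ha) card_Pp Pp_exp (m a) hma z π hπ hass hzN hzs t ht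
    have hord2 : Ring.ord (integralClosure O L) (∏ h ∈ univ.erase (1 : kerS a), (t - h • t)) =
        ((∑ h ∈ univ.erase (1 : kerS a), k h : ℕ) : ℕ∞) := by
      have hne1 : ∀ h ∈ univ.erase (1 : kerS a), (h : Pp p) ≠ 1 := fun h hh h1 =>
        ne_of_mem_erase hh (Subtype.ext h1)
      rw [ord_prod (univ.erase (1 : kerS a)) (fun h => t - h • t) fun h hh => hne (h : Pp p) (hne1 h hh), Nat.cast_sum]
      exact sum_congr rfl fun h hh => hk h (hne1 h hh)
    rw [hord2, hord] at htow
    exact_mod_cast htow
  rw [hD]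
  show Ring.ord _ _ = _
  rw [hord, hgoal]

end Run7.h477.WC
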