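import Mathlib
import Pool.Agent.Run7.h477.WC.LS5
import Pool.Agent.Run7.h892.WC.LT
import Pool.Agent.Run7.h892.WC.LB
import Pool.Agent.Run7.h892.WC.LC
import Pool.Agent.Run7.h892.WC.UNI
import Pool.Agent.Run7.h81.WC.H90
import Pool.Agent.Run7.h81.WC.MIN
import Pool.Agent.Run7.h81.WC.SEMI
import Pool.Agent.Run7.h576.WC.OINF
import Pool.Agent.Run7.h576.WC.EXIST

set_option autoImplicit false
set_option linter.unusedSectionVars false

/-!
# Project WC, assembly, part 1: the type of a cover and the degree of the different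
-/

namespace Run7.h477.WC

open Finset Polynomial

universe u

theorem t_LS : S_LS.{u} := ls Run7.h892.WC.t_LB Run7.h892.WC.t_LC Run7.h892.WC.t_LT

theorem t_DEG : S_DEG.{u} := by
  intro p hpp K _ _ _ c m hm
  obtain ⟨hac, π, hπ, hπh⟩ := Run7.h576.WC.t_OINF K
  have hgal := c.galois
  have hp : ((p : ℕ) : Oinf K) = 0 := by
    have : ((p : ℕ) : RatFunc K) = 0 := by
      have h := congrArg (algebraMap K (RatFunc K)) (CharP.cast_eq_zero K p)
      rwa [map_natCast, map_zero] at h
    apply IsFractionRing.injective (Oinf K) (RatFunc K)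
    rw [map_natCast, map_zero, this]
  have h1 := dedekind_of (Oinf K) (RatFunc K) c.L
  have h2 := torsionFree_of (Oinf K) (RatFunc K) c.L
  refine t_LS p (Oinf K) (RatFunc K) c.L hp π hπ m fun a ha => ?_
  obtain ⟨h1, y, h, h2, h3, h4⟩ := hm a ha
  have hne : h ≠ 0 := by
    rintro rfl
    rw [natDegree_zero] at h4
    exact h1 (h4 ▸ dvd_zero p)
  obtain ⟨e, he, h5⟩ := hπh h hne
  rw [h4] at h5
  exact ⟨h1, y, algebraMap K[X] (RatFunc K) h, e, he, h2,
    by rw [h3, IsScalarTower.algebraMap_apply K[X] (RatFunc K) c.L], h5⟩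

section ty

variable {p : ℕ} [hpp : Fact p.Prime] {K : Type u} [Field K] [IsAlgClosed K] [CharP K p]

/-- `y` is an Artin-Schreier generator for the character `a` with polynomial `h` -/
def IsGen (c : Cov (Pp p) K) (a : ZMod p × ZMod p) (y : c.L) (h : K[X]) : Prop :=
  (∀ σ : Pp p, σ • y = y + ((chi a σ).val : c.L)) ∧ y ^ p - y = algebraMap K[X] c.L h

/-- the type of a cover: the conductors (minus one) of the characters -/
noncomputable def tyv (c : Cov (Pp p) K) (a : ZMod p × ZMod p) : ℕ :=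
  sInf {n | ∃ (y : c.L) (h : K[X]), IsGen c a y h ∧ minDeg p h = n}

instance charL (c : Cov (Pp p) K) : CharP c.L p := by
  have h : Function.Injective ((algebraMap (RatFunc K) c.L).comp (algebraMap K (RatFunc K))) :=
    ((algebraMap (RatFunc K) c.L).comp (algebraMap K (RatFunc K))).injective
  exact charP_of_injective_ringHom h p

lemma gen_exists (c : Cov (Pp p) K) (a : ZMod p × ZMod p) : ∃ (y : c.L) (h : K[X]), IsGen c a y h := by
  have hp : ((p : ℕ) : integralClosure K[X] c.L) = 0 := by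
    have hinj : Function.Injective (algebraMap (integralClosure K[X] c.L) c.L) := Subtype.val_injective
    apply hinj
    rw [map_natCast, map_zero, CharP.cast_eq_zero]
  obtain ⟨y, f, h1, h2⟩ := Run7.h81.WC.t_H90 p (Pp p) K[X] (integralClosure K[X] c.L) c.torsor hp (chi a)
    (fun σ τ => chi_mul a σ τ)
  refine ⟨(y : c.L), f, fun σ => ?_, ?_⟩
  · have := congrArg Subtype.val (h1 σ)
    rw [integralClosure.coe_smul] at this
    rw [this]
    norm_cast
  · have := congrArg Subtype.val h2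
    exact this

lemma ty_eq (c : Cov (Pp p) K) {a : ZMod p × ZMod p} {y : c.L} {h : K[X]} (hy : IsGen c a y h) :
    tyv c a = minDeg p h := by
  have hset : {n | ∃ (y : c.L) (h : K[X]), IsGen c a y h ∧ minDeg p h = n} = {minDeg p h} := by
    ext n
    rw [Set.mem_ofPred_eq, Set.mem_singleton_iff]
    constructor
    · rintro ⟨y', h', hy', rfl⟩
      obtain ⟨g, rfl⟩ := Run7.h892.WC.t_UNI p K (Pp p) c (chi a) y y' h h' hy.1 hy'.1 hy.2 hy'.2
      exact (Run7.h81.WC.t_MIN p K).2.2 h g
    · rintro rfl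
      exact ⟨y, h, hy, rfl⟩
  unfold tyv
  rw [hset, csInf_singleton]

/-- an Artin-Schreier generator of least degree -/
lemma gen_min (c : Cov (Pp p) K) {a : ZMod p × ZMod p} (ha : a ≠ 0) :
    ∃ (y : c.L) (h : K[X]), IsGen c a y h ∧ h.natDegree = tyv c a ∧ ¬ p ∣ tyv c a := by
  obtain ⟨y, h, hy⟩ := gen_exists c a
  obtain ⟨g, hg1, hg2⟩ := (Run7.h81.WC.t_MIN p K).1 h
  have hy' : IsGen c a (y + algebraMap K[X] c.L g) (h + g ^ p - g) := by
    refine ⟨fun σ => ?_, ?_⟩
    · rw [smul_add, hy.1 σ, smul_algebraMap]; ring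
    · rw [add_pow_char, map_sub, map_add, map_pow, ← hy.2]; ring
  refine ⟨_, _, hy', by rw [hg1, ty_eq c hy], ?_⟩
  rw [ty_eq c hy, ← hg1]
  rcases hg2 with h0 | h0
  · exfalso
    rw [h0] at hy'
    obtain ⟨hs, hz⟩ := hy'
    rw [map_zero, sub_eq_zero] at hz
    obtain ⟨n, hn⟩ := Run7.h576.WC.exists_val _ hz
    rw [hn] at hs
    have h2 : ∀ s : Pp p, chi a s = 0 := fun s => by
      have h3 := hs s
      have h5 : s • ((n.val : ℕ) : c.L) = ((n.val : ℕ) : c.L) :=
        map_natCast (MulSemiringAction.toRingHom (Pp p) c.L s) n.val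
      rw [h5] at h3
      have h4 : ((chi a s).val : c.L) = ((0 : ZMod p).val : c.L) := by
        rw [ZMod.val_zero, Nat.cast_zero]
        linear_combination -h3
      exact Run7.h576.WC.val_inj h4
    apply ha
    apply Prod.ext
    · have := h2 (Multiplicative.ofAdd (1, 0))
      simpa [chi] using this
    · have := h2 (Multiplicative.ofAdd (0, 1))
      simpa [chi] using this
  · exact h0

lemma deg_ty (c : Cov (Pp p) K) :
    c.deg = ((∑ a ∈ univ.erase (0 : ZMod p × ZMod p), (tyv c a + 1) : ℕ) : ℕ∞) := by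
  refine t_DEG p K c (tyv c) fun a ha => ?_
  obtain ⟨y, h, hy, h1, h2⟩ := gen_min c ha
  exact ⟨h2, y, h, hy.1, hy.2, h1⟩

lemma ty_zero (c : Cov (Pp p) K) : tyv c 0 = 0 := by
  have h : IsGen c 0 0 0 := by
    refine ⟨fun σ => ?_, ?_⟩
    · have : chi (0 : ZMod p × ZMod p) σ = 0 := by unfold chi; rw [Prod.fst_zero, Prod.snd_zero]; ring
      rw [this, ZMod.val_zero, Nat.cast_zero, smul_zero, add_zero]
    · rw [zero_pow hpp.out.ne_zero, sub_zero, map_zero]
  rw [ty_eq c h]
  unfold minDeg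
  rw [Nat.sInf_eq_zero]
  left
  exact ⟨0, by rw [zero_pow hpp.out.ne_zero, sub_zero, add_zero, natDegree_zero]⟩

end ty

end Run7.h477.WC
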