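import Mathlib
import Pool.Agent.Run7.h477.WC.ASM1

set_option autoImplicit false
set_option linter.unusedSectionVars false

/-!
# Project WC, assembly, part 2: the type is a continuous function on the moduli space
-/

namespace Run7.h477.WC

open Finset Polynomial

universe u

section

variable {p : ℕ} [hpp : Fact p.Prime]

lemma charGeo {k : Type u} [Field k] [CharP k p] (g : Geo k) : CharP g.K p :=
  charP_of_injective_algebraMap (algebraMap k g.K).injective p

/-- the least degree is invariant under extension of algebraically closed fields -/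
lemma minDeg_map {K K' : Type u} [Field K] [IsAlgClosed K] [CharP K p] [Field K'] [IsAlgClosed K'] (φ : K →+* K') (h : K[X]) :
    minDeg p (h.map φ) = minDeg p h := by
  have hK : (p : K) = 0 := CharP.cast_eq_zero K p
  have key : ∀ m, m ≤ minDeg p (h.map φ) ↔ m ≤ minDeg p h := by
    intro m
    obtain ⟨U, _, hU⟩ := Run7.h81.WC.t_SEMI p K hK h m
    have h1 := hU K' φ
    have h2 := hU K (RingHom.id K)
    rw [Polynomial.map_id] at h2
    have e : (⟨RingHom.ker φ, RingHom.ker_isPrime φ⟩ : PrimeSpectrum K) =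
        ⟨RingHom.ker (RingHom.id K), RingHom.ker_isPrime (RingHom.id K)⟩ := by
      apply PrimeSpectrum.ext
      show RingHom.ker φ = RingHom.ker (RingHom.id K)
      rw [(RingHom.injective_iff_ker_eq_bot φ).1 φ.injective,
        (RingHom.injective_iff_ker_eq_bot (RingHom.id K)).1 (RingHom.id K).injective]
    rw [e] at h1
    exact h1.trans h2.symm
  exact le_antisymm ((key _).1 le_rfl) ((key _).2 le_rfl)

variable {k : Type u} [Field k] [IsAlgClosed k] [CharP k p] {d : ℕ}

/-- the type of a point -/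
noncomputable def tyPt (a : Pt (Pp p) k d) : ZMod p × ZMod p → ℕ :=
  haveI := charGeo (p := p) a.g
  tyv a.c

lemma rel_ty (a b : Pt (Pp p) k d) (h : Pt.Rel a b) : tyPt a = tyPt b := by
  haveI := charGeo (p := p) a.g
  haveI := charGeo (p := p) b.g
  obtain ⟨φ, _, r, s, ψ, hr, hσ, hf⟩ := h
  funext x
  obtain ⟨y, f, hy⟩ := gen_exists a.c x
  have hy' : IsGen b.c x (ψ y) ((f.map φ).comp (C r * X + C s)) := by
    refine ⟨fun σ => ?_, ?_⟩
    · rw [← hσ, hy.1 σ, map_add, map_natCast]
    · rw [← map_pow, ← map_sub, hy.2, hf]; rfl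
  show tyv a.c x = tyv b.c x
  rw [ty_eq a.c hy, ty_eq b.c hy', (Run7.h81.WC.t_MIN p b.g.K).2.1 _ r s hr, minDeg_map]

/-- the type as a function on the moduli space -/
noncomputable def TY : Mod (Pp p) k d → (ZMod p × ZMod p → ℕ) := Quot.lift tyPt rel_ty

lemma isOpen_TY (τ : ZMod p × ZMod p → ℕ) : IsOpen {x : Mod (Pp p) k d | TY x = τ} := by
  simp only [instTopologicalSpaceMod, isOpen_iSup_iff, isOpen_coinduced]
  intro R _ _ F t ht
  have hpk : (p : k) = 0 := CharP.cast_eq_zero k p
  have hR : (p : R) = 0 := by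
    have h := congrArg (algebraMap k R) hpk
    rwa [map_natCast, map_zero] at h
  have hA : ((p : ℕ) : F.A) = 0 := by
    have h := congrArg (algebraMap R[X] F.A) (congrArg (C : R →+* R[X]) hR)
    rwa [map_natCast, map_natCast, map_zero, map_zero] at h
  -- Artin-Schreier generators of the family
  choose y f hy hf using fun a : ZMod p × ZMod p =>
    Run7.h81.WC.t_H90 p (Pp p) R[X] F.A F.torsor hA (chi a) (fun σ τ => chi_mul a σ τ)
  choose U hU hUK using fun a : ZMod p × ZMod p => Run7.h81.WC.t_SEMI p R hR (f a) (τ a)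
  -- the type at `s`
  have hval : ∀ (s : PrimeSpectrum R) (a : ZMod p × ZMod p), (τ a ≤ TY (t s) a ↔ s ∈ U a) ∧ TY (t s) 0 = 0 ∧
      ((∑ a ∈ univ.erase (0 : ZMod p × ZMod p), (TY (t s) a + 1) : ℕ) = d) := by
    intro s a
    obtain ⟨b, φ, _, hker, ⟨ψ, hψ1, hψ2⟩, hts⟩ := ht s
    haveI := charGeo (p := p) b.g
    have hty : TY (t s) = tyv b.c := by rw [hts]; rfl
    refine ⟨?_, ?_, ?_⟩
    · have hgen : IsGen b.c a (ψ (y a)) ((f a).map φ) := by
        refine ⟨fun σ => ?_, ?_⟩
        · rw [← hψ1, hy, map_add, map_natCast]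
        · rw [← map_pow, ← map_sub, hf, hψ2]
      rw [hty, ty_eq b.c hgen, hUK a b.g.K φ]
      have e : (⟨RingHom.ker φ, RingHom.ker_isPrime φ⟩ : PrimeSpectrum R) = s :=
        PrimeSpectrum.ext hker
      rw [e]
    · rw [hty]; exact ty_zero b.c
    · rw [hty]
      have h1 := deg_ty b.c
      rw [b.hd] at h1
      exact_mod_cast h1.symm
  by_cases hτ : τ 0 = 0 ∧ ∑ a ∈ univ.erase (0 : ZMod p × ZMod p), (τ a + 1) = d
  · have e : t ⁻¹' {x : Mod (Pp p) k d | TY x = τ} = ⋂ a ∈ univ.erase (0 : ZMod p × ZMod p), U a := by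
      ext s
      rw [Set.mem_preimage, Set.mem_ofPred_eq, Set.mem_iInter₂]
      constructor
      · intro h a _
        exact ((hval s a).1).1 (by rw [h])
      · intro h
        have h1 : ∀ a ∈ univ.erase (0 : ZMod p × ZMod p), τ a + 1 ≤ TY (t s) a + 1 := fun a ha =>
          Nat.succ_le_succ (((hval s a).1).2 (h a ha))
        have h2 := (Finset.sum_eq_sum_iff_of_le h1).1 (by rw [hτ.2, (hval s 0).2.2])
        funext a
        by_cases ha : a = 0
        · rw [ha, (hval s 0).2.1, hτ.1]
        · have := h2 a (mem_erase.2 ⟨ha, mem_univ _⟩)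
          omega
    rw [e]
    exact isOpen_biInter_finset fun a _ => hU a
  · have e : t ⁻¹' {x : Mod (Pp p) k d | TY x = τ} = ∅ := by
      rw [Set.eq_empty_iff_forall_notMem]
      intro s hs
      rw [Set.mem_preimage, Set.mem_ofPred_eq] at hs
      apply hτ
      rw [← hs]
      exact ⟨(hval s 0).2.1, (hval s 0).2.2⟩
    rw [e]
    exact isOpen_empty

/-- every function of the type is continuous -/
lemma cont_TY {Z : Type*} [TopologicalSpace Z] (g : (ZMod p × ZMod p → ℕ) → Z) :
    Continuous fun x : Mod (Pp p) k d => g (TY x) := by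
  rw [continuous_def]
  intro V _
  have e : (fun x : Mod (Pp p) k d => g (TY x)) ⁻¹' V = ⋃ τ ∈ g ⁻¹' V, {x : Mod (Pp p) k d | TY x = τ} := by
    ext x
    simp
  rw [e]
  exact isOpen_biUnion fun τ _ => isOpen_TY τ

end

end Run7.h477.WC
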