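import Mathlib
import Pool.Agent.Run7.h477.WC.ASM2

set_option autoImplicit false
set_option linter.unusedSectionVars false

/-!
# Project WC, assembly, part 3: existence of the covers and the final theorem
-/

namespace Run7.h477.WC

open Finset Polynomial

universe u

section

variable {p : ℕ} [hpp : Fact p.Prime]

lemma minDeg_eq {K : Type u} [Field K] [CharP K p] {h : K[X]} (hh : ¬ p ∣ h.natDegree) : minDeg p h = h.natDegree := by
  apply le_antisymm
  · apply Nat.sInf_le
    exact ⟨0, by rw [zero_pow hpp.out.ne_zero, sub_zero, add_zero]⟩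
  · apply le_csInf (⟨_, 0, rfl⟩ : Set.Nonempty {n | ∃ g : K[X], (h + g ^ p - g).natDegree = n})
    rintro n ⟨g, rfl⟩
    have h1 := Run7.h576.WC.as_deg (p := p) g
    set w := g ^ p - g with hw
    have e : h + g ^ p - g = h + w := by rw [hw]; ring
    rw [e]
    rcases lt_trichotomy w.natDegree h.natDegree with h2 | h2 | h2
    · rw [natDegree_add_eq_left_of_natDegree_lt h2]
    · rw [h2] at h1; exact absurd h1 hh
    · rw [natDegree_add_eq_right_of_natDegree_lt h2]; exact h2.le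

/-- the exponents -/
def ea (p n j : ℕ) : ℕ := 1 + p ^ 2 * (n - j)
def eb (p n j : ℕ) : ℕ := 1 + p ^ 2 * n + p * j

lemma not_dvd_ea (n j : ℕ) : ¬ p ∣ ea p n j := by
  unfold ea
  intro h
  have h1 : p ∣ p ^ 2 * (n - j) := Dvd.dvd.mul_right (dvd_pow_self p two_ne_zero) _
  have h2 := (Nat.dvd_add_left h1).1 h
  exact hpp.out.one_lt.ne' (Nat.dvd_one.1 h2)

lemma not_dvd_eb (n j : ℕ) : ¬ p ∣ eb p n j := by
  unfold eb
  intro h
  have h1 : p ∣ p ^ 2 * n := Dvd.dvd.mul_right (dvd_pow_self p two_ne_zero) _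
  rw [add_assoc] at h
  have h2 := (Nat.dvd_add_left (h1.add (dvd_mul_right p j))).1 h
  exact hpp.out.one_lt.ne' (Nat.dvd_one.1 h2)

lemma ea_le_eb (n j : ℕ) : ea p n j ≤ eb p n j := by
  unfold ea eb
  have h1 : p ^ 2 * (n - j) ≤ p ^ 2 * n := Nat.mul_le_mul_left _ (Nat.sub_le _ _)
  omega

lemma ea_lt_eb {n j : ℕ} (hj : 1 ≤ j) : ea p n j < eb p n j := by
  unfold ea eb
  have h1 : p ^ 2 * (n - j) ≤ p ^ 2 * n := Nat.mul_le_mul_left _ (Nat.sub_le _ _)
  have h2 : 0 < p * j := Nat.mul_pos hpp.out.pos hj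
  omega

/-- the type number `j` -/
def ta (p n j : ℕ) (a : ZMod p × ZMod p) : ℕ := if a = 0 then 0 else if a.2 = 0 then ea p n j else eb p n j

/-- the sum does not depend on `j` -/
lemma sum_ta (n j : ℕ) (hj : j ≤ n) : ∑ a ∈ univ.erase (0 : ZMod p × ZMod p), (ta p n j a + 1) =
    ∑ a ∈ univ.erase (0 : ZMod p × ZMod p), (ta p n 0 a + 1) := by
  classical
  have h1 : ∀ i, ∑ a ∈ univ.erase (0 : ZMod p × ZMod p), (ta p n i a + 1) =
      (p - 1) * (ea p n i + 1) + (p * (p - 1)) * (eb p n i + 1) := by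
    intro i
    have h2 : ∀ a ∈ univ.erase (0 : ZMod p × ZMod p), ta p n i a + 1 = if a.2 = 0 then ea p n i + 1 else eb p n i + 1 := by
      intro a ha
      unfold ta
      rw [if_neg (ne_of_mem_erase ha)]
      split_ifs <;> rfl
    rw [sum_congr rfl h2, sum_ite, sum_const, sum_const, smul_eq_mul, smul_eq_mul]
    have hp2 : Fintype.card (ZMod p × ZMod p) = p * p := by rw [Fintype.card_prod, ZMod.card]
    have c0 : ((univ : Finset (ZMod p × ZMod p)).filter fun a => a.2 = 0).card = p := by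
      have : ((univ : Finset (ZMod p × ZMod p)).filter fun a => a.2 = 0) = (univ : Finset (ZMod p)) ×ˢ {0} := by
        ext a; rw [mem_filter, mem_product, mem_singleton]; simp
      rw [this, card_product, card_univ, ZMod.card, card_singleton, mul_one]
    have c1 : ((univ.erase (0 : ZMod p × ZMod p)).filter fun a => a.2 = 0).card = p - 1 := by
      have : ((univ.erase (0 : ZMod p × ZMod p)).filter fun a => a.2 = 0) =
          ((univ : Finset (ZMod p × ZMod p)).filter fun a => a.2 = 0).erase 0 := by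
        ext a; simp only [mem_filter, mem_erase, mem_univ, true_and, and_true]
      rw [this, card_erase_of_mem, c0]
      rw [mem_filter]; exact ⟨mem_univ _, rfl⟩
    have c2 : ((univ.erase (0 : ZMod p × ZMod p)).filter fun a => ¬ a.2 = 0).card = p * (p - 1) := by
      have h3 := card_filter_add_card_filter_not (s := univ.erase (0 : ZMod p × ZMod p)) (fun a => a.2 = 0)
      rw [c1, card_erase_of_mem (mem_univ _), card_univ, hp2] at h3
      obtain ⟨q, hq⟩ : ∃ q, p = q + 1 := ⟨p - 1, by have := hpp.out.pos; omega⟩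
      have h4 : p * p - 1 = p * (p - 1) + (p - 1) := by
        rw [hq, Nat.add_sub_cancel]
        have : (q + 1) * (q + 1) = (q + 1) * q + q + 1 := by ring
        omega
      omega
    rw [c1, c2]
  rw [h1, h1]
  obtain ⟨i, rfl⟩ := Nat.exists_eq_add_of_le hj
  unfold ea eb
  rw [Nat.add_sub_cancel_left, Nat.sub_zero]
  ring

variable {K : Type u} [Field K] [IsAlgClosed K] [CharP K p]

lemma exists_notFp (p : ℕ) [Fact p.Prime] (K : Type u) [Field K] [IsAlgClosed K] : ∃ c : K, ∀ n : ℕ, n < p → c ≠ n := by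
  classical
  have hinf : Infinite K := IsAlgClosed.instInfinite
  obtain ⟨c, hc⟩ := Infinite.exists_notMem_finset ((range p).image (fun n : ℕ => (n : K)))
  refine ⟨c, fun n hn h => hc ?_⟩
  rw [mem_image]
  exact ⟨n, mem_range.2 hn, h.symm⟩

/-- the Artin-Schreier polynomials have the expected degrees -/
lemma deg_comb {c : K} (hc : ∀ n : ℕ, n < p → c ≠ n) (n j : ℕ) (a : ZMod p × ZMod p) (ha : a ≠ 0) :
    ((a.1.val : K[X]) * X ^ ea p n j + (a.2.val : K[X]) * (C c * X ^ eb p n j)).natDegree = ta p n j a := by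
  have hc0 : c ≠ 0 := by
    have := hc 0 hpp.out.pos
    rwa [Nat.cast_zero] at this
  have hval : ∀ x : ZMod p, x ≠ 0 → ((x.val : ℕ) : K) ≠ 0 := by
    intro x hx h0
    rw [CharP.cast_eq_zero_iff K p] at h0
    exact hx ((ZMod.val_eq_zero x).1 (Nat.eq_zero_of_dvd_of_lt h0 (ZMod.val_lt x)))
  have e1 : ((a.1.val : ℕ) : K[X]) = C ((a.1.val : ℕ) : K) := by rw [map_natCast]
  have e2 : ((a.2.val : ℕ) : K[X]) * (C c * X ^ eb p n j) = C (((a.2.val : ℕ) : K) * c) * X ^ eb p n j := by
    rw [map_mul, map_natCast, mul_assoc]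
  rw [e1, e2]
  unfold ta
  rw [if_neg ha]
  split_ifs with h2
  · have h1 : a.1 ≠ 0 := fun h1 => ha (Prod.ext h1 h2)
    rw [h2, ZMod.val_zero, Nat.cast_zero, zero_mul, map_zero, zero_mul, add_zero]
    exact natDegree_C_mul_X_pow _ _ (hval _ h1)
  · have h3 : ((a.2.val : ℕ) : K) * c ≠ 0 := mul_ne_zero (hval _ h2) hc0
    rcases Nat.lt_or_ge (ea p n j) (eb p n j) with h4 | h4
    · rw [natDegree_add_eq_right_of_natDegree_lt, natDegree_C_mul_X_pow _ _ h3]
      rw [natDegree_C_mul_X_pow _ _ h3]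
      exact (natDegree_C_mul_X_pow_le _ _).trans_lt h4
    · have h5 : ea p n j = eb p n j := le_antisymm (ea_le_eb n j) h4
      rw [h5, ← add_mul, ← map_add]
      apply natDegree_C_mul_X_pow
      intro h0
      -- `c = - a₁ / a₂` would lie in the prime field
      have h6 : (((-a.1 / a.2 : ZMod p).val : ℕ) : K) = c := by
        have h7 := Run7.h576.WC.val_mul (p := p) (L := K) (-a.1 / a.2) a.2
        have h8 := Run7.h576.WC.val_add (p := p) (L := K) (-a.1) a.1
        rw [neg_add_cancel, ZMod.val_zero, Nat.cast_zero] at h8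
        rw [div_mul_cancel₀ _ h2] at h7
        have h9 : ((a.2.val : ℕ) : K) ≠ 0 := hval _ h2
        apply mul_right_cancel₀ h9
        rw [← h7]
        linear_combination -h8 - h0
      exact hc _ (ZMod.val_lt _) h6.symm

lemma not_dvd_ta (n j : ℕ) (a : ZMod p × ZMod p) (ha : a ≠ 0) : ¬ p ∣ ta p n j a := by
  unfold ta
  rw [if_neg ha]
  split_ifs
  · exact not_dvd_ea n j
  · exact not_dvd_eb n j

/-- the cover number `j` -/
lemma cover_exists (p : ℕ) [Fact p.Prime] (K : Type u) [Field K] [IsAlgClosed K] [CharP K p] (n j : ℕ) :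
    ∃ c : Cov (Pp p) K, tyv c = ta p n j := by
  obtain ⟨e, he⟩ := exists_notFp p K
  obtain ⟨c, hc⟩ := Run7.h576.WC.t_EXIST p K (X ^ ea p n j) (C e * X ^ eb p n j) (fun a ha => by
    rw [deg_comb he n j a ha]; exact not_dvd_ta n j a ha)
  refine ⟨c, funext fun a => ?_⟩
  by_cases ha : a = 0
  · rw [ha, ty_zero]; unfold ta; rw [if_pos rfl]
  · obtain ⟨y, hy⟩ := hc a
    rw [ty_eq c hy, minDeg_eq, deg_comb he n j a ha]
    rw [deg_comb he n j a ha]; exact not_dvd_ta n j a ha

end

theorem main (p : ℕ) [Fact p.Prime] (k : Type u) [Field k] [IsAlgClosed k] [CharP k p] (n : ℕ) :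
    ∃ (d : ℕ) (f : Mod (Pp p) k d → Fin (n + 1)), Continuous f ∧ Function.Surjective f := by
  classical
  set d := ∑ a ∈ univ.erase (0 : ZMod p × ZMod p), (ta p n 0 a + 1) with hd
  let G : (ZMod p × ZMod p → ℕ) → Fin (n + 1) := fun τ =>
    if h : ∃ j : Fin (n + 1), τ = ta p n j then h.choose else 0
  refine ⟨d, fun x => G (TY x), cont_TY G, fun j => ?_⟩
  obtain ⟨c, hc⟩ := cover_exists p k n j
  let g : Geo k := ⟨k⟩
  have hdeg : c.deg = (d : ℕ∞) := by
    rw [deg_ty c, hc, sum_ta n j (by have := j.2; omega)]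
  let a : Pt (Pp p) k d := ⟨g, c, hdeg⟩
  refine ⟨Quot.mk _ a, ?_⟩
  have h1 : TY (Quot.mk _ a : Mod (Pp p) k d) = ta p n j := hc
  show G (TY (Quot.mk _ a : Mod (Pp p) k d)) = j
  rw [h1]
  have h2 : ∃ i : Fin (n + 1), ta p n j = ta p n i := ⟨j, rfl⟩
  have h3 : G (ta p n j) = h2.choose := dif_pos h2
  rw [h3]
  have h4 := h2.choose_spec
  have h5 := congrFun h4 (1, 0)
  have hne : ((1, 0) : ZMod p × ZMod p) ≠ 0 := by
    intro h
    have := congrArg Prod.fst h
    exact one_ne_zero this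
  unfold ta at h5
  rw [if_neg hne, if_neg hne, if_pos rfl, if_pos rfl] at h5
  unfold ea at h5
  have h6 : p ^ 2 * (n - (j : ℕ)) = p ^ 2 * (n - (h2.choose : ℕ)) := Nat.add_left_cancel h5
  have h7 := Nat.eq_of_mul_eq_mul_left (pow_pos (Fact.out : p.Prime).pos 2) h6
  have := j.2
  have := h2.choose.2
  apply Fin.ext
  omega

end Run7.h477.WC
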